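import Pool.Agent.N129.FC.Seq
import Pool.Agent.H323R2.NT2

/-!
The asymptotic form: at every scale `N`, for every `ψ ≤ log N`.
-/

set_option autoImplicit false

namespace Pool.Agent.N129.FC

open Finset Filter Topology
open Pool.Agent.H393R2.DC (S Pol dlt V Dn)
open Pool.Agent.H323R2.Gen (badG vv vv_step NR badG_card)

lemma ev_mul (K a b : ℝ) (hab : a < b) : ∀ᶠ x : ℝ in atTop, K * x ^ a ≤ x ^ b := by
  filter_upwards [(tendsto_rpow_atTop (show 0 < b - a by linarith)).eventually_ge_atTop K,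
    eventually_gt_atTop (0 : ℝ)] with x hx hx0
  have e : x ^ b = x ^ (b - a) * x ^ a := by rw [← Real.rpow_add hx0]; congr 1; ring
  rw [e]
  exact mul_le_mul_of_nonneg_right hx (by positivity)

lemma ev_log (K ε : ℝ) (hε : 0 < ε) : ∀ᶠ x : ℝ in atTop, K * Real.log x ≤ x ^ ε := by
  have h1 := (isLittleO_log_rpow_atTop hε).const_mul_left K
  have h2 := h1.bound (show (0 : ℝ) < 1 by norm_num)
  filter_upwards [h2, eventually_gt_atTop (0 : ℝ)] with x hx hx0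
  rw [one_mul, Real.norm_eq_abs, Real.norm_eq_abs, abs_of_pos (Real.rpow_pos_of_pos hx0 _)] at hx
  exact (le_abs_self _).trans hx

/-- the conditions on `x` -/
lemma ev_all (α γ : ℝ) (hγ0 : 0 < γ) (hγα : γ ≤ α) (hαγ : α + γ < 1) :
    ∃ γ' β' : ℝ, γ' < 1 ∧ α < γ' ∧ γ' < β' ∧ β' < 1 ∧ γ + γ' < β' ∧
    ∀ (K1 K2 K3 K4 K5 Q0 c1 : ℝ), 0 < c1 → ∃ X : ℝ, ∀ x : ℝ, X ≤ x →
      1 ≤ x ∧ Q0 ≤ x ^ γ' ∧ K1 * x ^ (γ + γ') ≤ x ^ β' ∧
      K2 * Real.log x * x ^ γ' ≤ x ^ β' ∧ 20 * x ^ β' ≤ x ∧ K3 ≤ x ^ β' ∧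
      K4 * x ^ α + K5 ≤ c1 * x ^ γ' / Real.log x ∧ 1 ≤ Real.log x := by
  refine ⟨(α + (1 - γ)) / 2, (((α + (1 - γ)) / 2 + γ) + 1) / 2, by linarith, by linarith,
    by linarith, by linarith, by linarith, ?_⟩
  set γ' := (α + (1 - γ)) / 2 with hγ'
  set β' := ((γ' + γ) + 1) / 2 with hβ'
  have h1 : γ' < 1 := by linarith
  have h2 : α < γ' := by linarith
  have h3 : γ' < β' := by linarith
  have h4 : β' < 1 := by linarith
  have h5 : γ + γ' < β' := by linarith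
  have h6 : 0 < γ' := by linarith
  have h7 : 0 < β' := by linarith
  intro K1 K2 K3 K4 K5 Q0 c1 hc1
  have e1 : ∀ᶠ x : ℝ in atTop, (1 : ℝ) ≤ x := eventually_ge_atTop 1
  have e2 : ∀ᶠ x : ℝ in atTop, Q0 ≤ x ^ γ' := (tendsto_rpow_atTop h6).eventually_ge_atTop _
  have e3 := ev_mul K1 (γ + γ') β' h5
  have e4 : ∀ᶠ x : ℝ in atTop, K2 * Real.log x * x ^ γ' ≤ x ^ β' := by
    filter_upwards [ev_log K2 (β' - γ') (by linarith), eventually_gt_atTop (0 : ℝ)] with x hx hx0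
    have e : x ^ β' = x ^ (β' - γ') * x ^ γ' := by rw [← Real.rpow_add hx0]; congr 1; ring
    rw [e]
    exact mul_le_mul_of_nonneg_right hx (by positivity)
  have e5 : ∀ᶠ x : ℝ in atTop, 20 * x ^ β' ≤ x := by
    filter_upwards [ev_mul 20 β' 1 h4] with x hx
    rwa [Real.rpow_one] at hx
  have e6 : ∀ᶠ x : ℝ in atTop, K3 ≤ x ^ β' := (tendsto_rpow_atTop h7).eventually_ge_atTop _
  have e8 : ∀ᶠ x : ℝ in atTop, 1 ≤ Real.log x := Real.tendsto_log_atTop.eventually_ge_atTop 1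
  have e7 : ∀ᶠ x : ℝ in atTop, K4 * x ^ α + K5 ≤ c1 * x ^ γ' / Real.log x := by
    set ε := (γ' - α) / 2 with hε
    have hε0 : 0 < ε := by linarith
    filter_upwards [ev_mul ((|K4| + |K5|) / c1) (γ' - 2 * ε) (γ' - ε) (by linarith), ev_log 1 ε hε0,
      e8, e1] with x hx1 hx2 hx3 hx4
    have hx0 : 0 < x := by linarith
    have e : x ^ γ' = x ^ (γ' - ε) * x ^ ε := by rw [← Real.rpow_add hx0]; congr 1; ring
    have e' : γ' - 2 * ε = α := by rw [hε]; ring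
    rw [e'] at hx1
    rw [one_mul] at hx2
    rw [le_div_iff₀ (by linarith)]
    have hxa : 1 ≤ x ^ α := Real.one_le_rpow hx4 (by linarith)
    have t1 : K4 * x ^ α + K5 ≤ (|K4| + |K5|) * x ^ α := by
      have := le_abs_self K4
      have := le_abs_self K5
      have := abs_nonneg K5
      nlinarith
    have t2 : (|K4| + |K5|) * x ^ α ≤ c1 * x ^ (γ' - ε) := by
      have : (|K4| + |K5|) / c1 * x ^ α = (|K4| + |K5|) * x ^ α / c1 := by ring
      rw [this, div_le_iff₀ hc1] at hx1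
      linarith
    calc (K4 * x ^ α + K5) * Real.log x ≤ (c1 * x ^ (γ' - ε)) * Real.log x :=
          mul_le_mul_of_nonneg_right (t1.trans t2) (by linarith)
      _ ≤ (c1 * x ^ (γ' - ε)) * x ^ ε := by
          apply mul_le_mul_of_nonneg_left hx2 (by positivity)
      _ = c1 * x ^ γ' := by rw [e]; ring
  obtain ⟨X, hX⟩ := eventually_atTop.1 (e1.and (e2.and (e3.and (e4.and (e5.and (e6.and
    (e7.and e8)))))))
  exact ⟨X, fun x hx => hX x hx⟩

/-- distinct truncations -/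
lemma trunc_ne (f : Polynomial ℤ) (hf : f.Monic) (hfi : Irreducible f) (hd2 : 2 ≤ f.natDegree)
    (b : ℕ) (hb : 2 ≤ b) (t C0 : ℝ) (ht : (f.map (Int.castRingHom ℝ)).eval t = 0)
    (U : ℕ → ℤ) (hU : ∀ K, |(U K : ℝ) - (b : ℝ) ^ K * t| ≤ C0) :
    ∃ K : ℕ, ∀ a c : ℕ, f.natDegree * a + K ≤ c → (U a : ℝ) / (b : ℝ) ^ a ≠ (U c : ℝ) / (b : ℝ) ^ c := by
  have hirr : Irrational t := by
    have hfQ : Irreducible (f.map (Int.castRingHom ℚ)) :=
      (hf.irreducible_iff_irreducible_map_fraction_map (K := ℚ)).1 hfi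
    rintro ⟨r, hr⟩
    have h1 : (f.map (Int.castRingHom ℚ)).eval r = 0 := by
      have h2 : ((((f.map (Int.castRingHom ℚ)).eval r : ℚ)) : ℝ) = (f.map (Int.castRingHom ℝ)).eval (r : ℝ) := by
        rw [Polynomial.eval_map, Polynomial.eval_map, Polynomial.eval₂_eq_sum_range,
          Polynomial.eval₂_eq_sum_range]
        push_cast
        simp
      rw [hr, ht] at h2
      exact_mod_cast h2
    have h3 : (f.map (Int.castRingHom ℚ)).natDegree = 1 := by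
      have h4 := Polynomial.degree_eq_one_of_irreducible_of_root hfQ h1
      exact Polynomial.natDegree_eq_of_degree_eq_some h4
    rw [hf.natDegree_map] at h3
    omega
  obtain ⟨A, hA, hL⟩ := Liouville.exists_pos_real_of_irrational_root hirr hf.ne_zero ht
  have hC0 : 0 ≤ C0 := (abs_nonneg _).trans (hU 0)
  have hb2 : (2 : ℝ) ≤ b := by exact_mod_cast hb
  obtain ⟨K, hK⟩ := pow_unbounded_of_one_lt (C0 * A) (show (1 : ℝ) < b by linarith)
  refine ⟨K, fun a c hac heq => ?_⟩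
  have hba : 1 ≤ b ^ a := Nat.one_le_pow _ _ (by omega)
  have h1 := hL (U a) (b ^ a - 1)
  have e1 : (((b ^ a - 1 : ℕ) : ℝ) + 1) = (b : ℝ) ^ a := by
    rw [Nat.cast_sub hba]; push_cast; ring
  rw [e1, heq] at h1
  have hbc : (0 : ℝ) < (b : ℝ) ^ c := by positivity
  have h2 : |t - (U c : ℝ) / (b : ℝ) ^ c| ≤ C0 / (b : ℝ) ^ c := by
    have e2 : t - (U c : ℝ) / (b : ℝ) ^ c = -(((U c : ℝ) - (b : ℝ) ^ c * t) / (b : ℝ) ^ c) := by
      field_simp; ring
    rw [e2, abs_neg, abs_div, abs_of_pos hbc]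
    exact div_le_div_of_nonneg_right (hU c) hbc.le
  have h3 : (1 : ℝ) ≤ ((b : ℝ) ^ a) ^ f.natDegree * (C0 / (b : ℝ) ^ c * A) := by
    refine h1.trans ?_
    gcongr
  have h4 : ((b : ℝ) ^ a) ^ f.natDegree * (C0 / (b : ℝ) ^ c * A) =
      (C0 * A) * (b : ℝ) ^ (f.natDegree * a) / (b : ℝ) ^ c := by
    rw [← pow_mul, mul_comm a]; ring
  rw [h4, le_div_iff₀ hbc, one_mul] at h3
  have h5 : (C0 * A) * (b : ℝ) ^ (f.natDegree * a) < (b : ℝ) ^ c := by
    calc (C0 * A) * (b : ℝ) ^ (f.natDegree * a) < (b : ℝ) ^ K * (b : ℝ) ^ (f.natDegree * a) :=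
          mul_lt_mul_of_pos_right hK (by positivity)
      _ = (b : ℝ) ^ (f.natDegree * a + K) := by rw [pow_add]; ring
      _ ≤ (b : ℝ) ^ c := pow_le_pow_right₀ (by linarith) hac
  linarith

end Pool.Agent.N129.FC
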