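import Mathlib

/-!
Combinatorial part: jumps of a function which is constant between the elements of a set whose
elements form short clusters separated by long gaps, and dilations.
-/

set_option autoImplicit false

namespace Pool.Agent.N129.FC

open Finset

/-- `v` is at distance more than `D` from every element of `A` -/
def Gap (A : Finset ℕ) (D v : ℕ) : Prop := ∀ e ∈ A, e + D < v ∨ v + D < e

/-- `k` is the first element of its cluster -/
def Hd (A : Finset ℕ) (D k : ℕ) : Prop := k ∈ A ∧ ∀ e ∈ A, e < k → e + D < k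

/-- distances between elements `≥ Y` are at most `D` or at least `R` -/
def Dich (A : Finset ℕ) (Y D R : ℕ) : Prop :=
  ∀ k ∈ A, ∀ k' ∈ A, Y ≤ k → k < k' → k' ≤ k + D ∨ k + R ≤ k'

lemma const {K : Type} (A : Finset ℕ) (N : ℕ) (σ : ℕ → K)
    (hσ : ∀ k, k + 1 ≤ N → k + 1 ∉ A → σ (k + 1) = σ k) (a : ℕ) :
    ∀ c, a ≤ c → c ≤ N → (∀ e ∈ A, a < e → c < e) → σ c = σ a := by
  intro c hac
  induction c, hac using Nat.le_induction with
  | base => intro _ _; rfl
  | succ c hc ih =>
    intro hN h
    rw [hσ c hN (fun hm => by have := h _ hm (by omega); omega)]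
    exact ih (by omega) (fun e he hae => by have := h e he hae; omega)

theorem jump {K : Type} (A : Finset ℕ) (N Y D R : ℕ) (σ : ℕ → K)
    (hσ : ∀ k, k + 1 ≤ N → k + 1 ∉ A → σ (k + 1) = σ k)
    (hd : Dich A Y D R) (hR : 3 * D + 2 ≤ R) : ∀ n a c, c - a ≤ n → Y ≤ a → a ≤ c → c ≤ N →
    Gap A D a → Gap A D c → σ a ≠ σ c →
    ∃ k, Hd A D k ∧ a + D < k ∧ k + D < c ∧ σ (k - 1) ≠ σ (k + D) := by
  classical
  intro n
  induction n with
  | zero =>
    intro a c h1 _ h2 _ _ _ hne
    have : a = c := by omega
    exact absurd (by rw [this]) hne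
  | succ n ih =>
    intro a c h1 hY hac hN hga hgc hne
    set S : Finset ℕ := A.filter (fun e => a < e ∧ e ≤ c) with hS
    rcases S.eq_empty_or_nonempty with h0 | hne0
    · exfalso
      apply hne
      symm
      refine const A N σ hσ a c hac hN fun e he hae => ?_
      by_contra hcon
      push Not at hcon
      have : e ∈ S := by rw [hS, Finset.mem_filter]; exact ⟨he, hae, hcon⟩
      rw [h0] at this
      exact absurd this (Finset.notMem_empty _)
    · set k := S.min' hne0 with hk
      have hkS : k ∈ S := Finset.min'_mem _ _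
      have hmin : ∀ e ∈ S, k ≤ e := fun e he => Finset.min'_le _ _ he
      rw [hS, Finset.mem_filter] at hkS
      obtain ⟨hkA, hak, hkc⟩ := hkS
      have hak' : a + D < k := by
        rcases hga k hkA with h | h
        · omega
        · exact h
      have hkc' : k + D < c := by
        rcases hgc k hkA with h | h
        · exact h
        · omega
      have hHd : Hd A D k := by
        refine ⟨hkA, fun e he hek => ?_⟩
        by_cases hae : a < e
        · have : e ∈ S := by rw [hS, Finset.mem_filter]; exact ⟨he, hae, by omega⟩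
          have := hmin e this
          omega
        · rcases hga e he with h | h <;> omega
      by_cases hj : σ (k - 1) = σ (k + D)
      swap
      · exact ⟨k, hHd, hak', hkc', hj⟩
      have h2 : σ (k - 1) = σ a := by
        refine const A N σ hσ a (k - 1) (by omega) (by omega) fun e he hae => ?_
        by_contra hcon
        push Not at hcon
        have : e ∈ S := by rw [hS, Finset.mem_filter]; exact ⟨he, hae, by omega⟩
        have := hmin e this
        omega
      have hafter : ∀ e ∈ A, k + D < e → k + R ≤ e := by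
        intro e he hke
        rcases hd k hkA e he (by omega) (by omega) with h | h
        · omega
        · exact h
      by_cases hc2 : c ≤ k + 2 * D + 1
      · exfalso
        apply hne
        have h3 : σ c = σ (k + D) := by
          refine const A N σ hσ (k + D) c (by omega) hN fun e he hae => ?_
          have := hafter e he hae
          omega
        rw [h3, ← hj, h2]
      · have h3 : σ (k + 2 * D + 1) = σ (k + D) := by
          refine const A N σ hσ (k + D) (k + 2 * D + 1) (by omega) (by omega) fun e he hae => ?_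
          have := hafter e he hae
          omega
        have hga' : Gap A D (k + 2 * D + 1) := by
          intro e he
          by_cases hke : k + D < e
          · have := hafter e he hke
            right; omega
          · left; omega
        obtain ⟨k', a1, a2, a3, a4⟩ := ih (k + 2 * D + 1) c (by omega) (by omega) (by omega) hN hga' hgc
          (by rw [h3, ← hj, h2]; exact hne)
        exact ⟨k', a1, by omega, a3, a4⟩

theorem choose_v (A : Finset ℕ) (Y D R : ℕ) (hd : Dich A Y D R) (v0 M : ℕ) (Bad : Finset ℕ)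
    (F e q : ℕ) (hq : 1 ≤ q) (hB : Bad.card ≤ e) (hM : F * e + 3 * D + 1 ≤ M) (hR : M + 2 * D < R)
    (hY : Y + D ≤ v0) :
    ∃ v, v0 ≤ v ∧ v ≤ v0 + M ∧ Gap A D v ∧ ∀ i < F, v * q ^ (F - i) ∉ Bad := by
  classical
  by_contra hcon
  push Not at hcon
  set I := Icc v0 (v0 + M) with hI
  set X1 := I.filter (fun v => ¬ Gap A D v) with hX1
  set X2 := (range F).biUnion (fun i => I.filter (fun v => v * q ^ (F - i) ∈ Bad)) with hX2
  have hsub : I ⊆ X1 ∪ X2 := by
    intro v hv
    rw [Finset.mem_union]
    by_cases hg : Gap A D v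
    · right
      have h1 := hv
      rw [hI, Finset.mem_Icc] at h1
      obtain ⟨i, hi, hib⟩ := hcon v h1.1 h1.2 hg
      rw [hX2, Finset.mem_biUnion]
      exact ⟨i, Finset.mem_range.2 hi, Finset.mem_filter.2 ⟨hv, hib⟩⟩
    · left
      rw [hX1, Finset.mem_filter]
      exact ⟨hv, hg⟩
  have hc2 : X2.card ≤ F * e := by
    refine Finset.card_biUnion_le.trans ?_
    refine (Finset.sum_le_card_nsmul _ _ e ?_).trans (by rw [Finset.card_range, smul_eq_mul])
    intro i hi
    refine le_trans ?_ hB
    apply Finset.card_le_card_of_injOn (fun v => v * q ^ (F - i))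
    · intro v hv
      exact (Finset.mem_filter.1 hv).2
    · intro v _ w _ h
      exact Nat.eq_of_mul_eq_mul_right (Nat.pow_pos hq) h
  have hc1 : X1.card ≤ 3 * D + 1 := by
    set E := A.filter (fun x => v0 ≤ x + D ∧ x ≤ v0 + M + D) with hE
    rcases E.eq_empty_or_nonempty with h0 | hne0
    · have : X1 = ∅ := by
        rw [Finset.eq_empty_iff_forall_notMem]
        intro v hv
        rw [hX1, Finset.mem_filter, hI, Finset.mem_Icc] at hv
        apply hv.2
        intro x hx
        by_contra h
        push Not at h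
        have : x ∈ E := by
          rw [hE, Finset.mem_filter]
          exact ⟨hx, by omega, by omega⟩
        rw [h0] at this
        exact absurd this (Finset.notMem_empty _)
      rw [this]; simp
    · set e0 := E.min' hne0 with he0
      have he0E : e0 ∈ E := Finset.min'_mem _ _
      have hmin : ∀ x ∈ E, e0 ≤ x := fun x hx => Finset.min'_le _ _ hx
      rw [hE, Finset.mem_filter] at he0E
      have hX : X1 ⊆ Icc (e0 - D) (e0 + 2 * D) := by
        intro v hv
        rw [hX1, Finset.mem_filter, hI, Finset.mem_Icc] at hv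
        obtain ⟨hv1, hv2⟩ := hv
        unfold Gap at hv2
        push Not at hv2
        obtain ⟨x, hx, h1, h2⟩ := hv2
        have hxE : x ∈ E := by
          rw [hE, Finset.mem_filter]
          exact ⟨hx, by omega, by omega⟩
        have h3 := hmin x hxE
        have h4 : x ≤ e0 + D := by
          rcases Nat.eq_or_lt_of_le h3 with h | h
          · omega
          · rcases hd e0 he0E.1 x hx (by omega) h with h5 | h5
            · exact h5
            · have := (Finset.mem_filter.1 hxE).2
              omega
        rw [Finset.mem_Icc]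
        omega
      refine (Finset.card_le_card hX).trans ?_
      rw [Nat.card_Icc]
      omega
  have h1 := (Finset.card_le_card hsub).trans (Finset.card_union_le _ _)
  rw [hI, Nat.card_Icc] at h1
  omega

/-- one dilation step -/
theorem step {K : Type} (A : Finset ℕ) (N Y D R M : ℕ) (σ : ℕ → K)
    (hσ : ∀ k, k + 1 ≤ N → k + 1 ∉ A → σ (k + 1) = σ k)
    (hd : Dich A Y D R) (Bad : Finset ℕ) (F e q : ℕ) (hq : 1 ≤ q) (hB : Bad.card ≤ e)
    (hM : F * e + 3 * D + 1 ≤ M) (hR : D + (M + 1) * q ^ F < R) (hR2 : M + 2 * D < R)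
    (hdil : ∀ v, v * q ^ F ≤ N → (∀ i < F, v * q ^ (F - i) ∉ Bad) → σ (v * q ^ F) = σ v)
    (k : ℕ) (hk : Hd A D k) (hj : σ (k - 1) ≠ σ (k + D))
    (hk1 : (Y + D + M + 1) * q ^ F ≤ k) (hk2 : k + D + (M + 1) * q ^ F ≤ N) :
    ∃ k', (1 ≤ k' ∧ k' + D ≤ N) ∧ Hd A D k' ∧ σ (k' - 1) ≠ σ (k' + D) ∧
      k' * q ^ F ≤ k + (D + (M + 1) * q ^ F) ∧ k ≤ k' * q ^ F + (M + 1) * q ^ F := by
  set T := q ^ F with hT
  have hT1 : 1 ≤ T := Nat.pow_pos hq
  have hkY : Y ≤ k := by nlinarith
  have hk0 : 1 ≤ k := by nlinarith
  have hR3 : 3 * D + 2 ≤ R := by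
    have : D + (M + 1) * 1 ≤ D + (M + 1) * T := by gcongr
    omega
  -- right side
  set a := (k + D) / T with ha
  have ha1 : a * T ≤ k + D := Nat.div_mul_le_self _ _
  have ha2 : k + D < (a + 1) * T := by
    rw [mul_comm]; exact Nat.lt_mul_div_succ _ (by omega)
  set c := (k - 1) / T with hc
  have hc1 : c * T ≤ k - 1 := Nat.div_mul_le_self _ _
  have hc2 : k - 1 < (c + 1) * T := by
    rw [mul_comm]; exact Nat.lt_mul_div_succ _ (by omega)
  have hcl : Y + D + M ≤ c := by
    by_contra hcon
    push Not at hcon
    have h1 : (c + 1) * T ≤ (Y + D + M) * T := Nat.mul_le_mul_right _ hcon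
    have h2 : (Y + D + M + 1) * T = (Y + D + M) * T + T := by ring
    omega
  have hca : c ≤ a := Nat.div_le_div_right (by omega)
  obtain ⟨v, hv1, hv2, hvg, hvb⟩ := choose_v A Y D R hd (a + 1) M Bad F e q hq hB hM hR2 (by omega)
  obtain ⟨w, hw1, hw2, hwg, hwb⟩ := choose_v A Y D R hd (c - M) M Bad F e q hq hB hM hR2 (by omega)
  have hvT : v * T ≤ k + D + (M + 1) * T := by
    calc v * T ≤ (a + 1 + M) * T := Nat.mul_le_mul_right _ hv2
      _ = a * T + (M + 1) * T := by ring
      _ ≤ _ := by omega
  have hvT2 : k + D ≤ v * T := by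
    have : (a + 1) * T ≤ v * T := Nat.mul_le_mul_right _ hv1
    omega
  have hwT : w * T ≤ k - 1 := by
    have : w * T ≤ c * T := Nat.mul_le_mul_right _ (by omega)
    omega
  have hwT2 : k ≤ w * T + (M + 1) * T := by
    have h1 : (c - M) * T ≤ w * T := Nat.mul_le_mul_right _ hw1
    have h2 : (c + 1) * T = (c - M) * T + (M + 1) * T := by
      rw [← add_mul]; congr 1; omega
    omega
  have hkA := hk.1
  have s1 : σ (v * T) = σ (k + D) := by
    refine const A N σ hσ (k + D) (v * T) hvT2 (by omega) fun x hx hx2 => ?_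
    rcases hd k hkA x hx hkY (by omega) with h | h <;> omega
  have s2 : σ (k - 1) = σ (w * T) := by
    refine const A N σ hσ (w * T) (k - 1) hwT (by omega) fun x hx hx2 => ?_
    by_contra hcon
    push Not at hcon
    have h1 := hk.2 x hx (by omega)
    have h2 : Y ≤ x := by
      have : w * 1 ≤ w * T := Nat.mul_le_mul_left _ hT1
      omega
    rcases hd x hx k hkA h2 (by omega) with h | h <;> omega
  have hne : σ w ≠ σ v := by
    rw [← hdil w (by omega) hwb, ← hdil v (by omega) hvb, ← s2, s1]
    exact hj
  have hvN : v ≤ N := by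
    have : v * 1 ≤ v * T := Nat.mul_le_mul_left _ hT1
    omega
  obtain ⟨k', b1, b2, b3, b4⟩ := jump A N Y D R σ hσ hd hR3 (v - w) w v le_rfl (by omega) (by omega)
    hvN hwg hvg hne
  refine ⟨k', ⟨by omega, by omega⟩, b1, b4, ?_, ?_⟩
  · have : k' * T ≤ v * T := Nat.mul_le_mul_right _ (by omega)
    omega
  · have : w * T ≤ k' * T := Nat.mul_le_mul_right _ (by omega)
    omega

end Pool.Agent.N129.FC
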