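import Pool.Agent.N129.FC.Comb

/-!
The tree of dilations: many sets of primes are reachable, different sets give different elements.
-/

set_option autoImplicit false

namespace Pool.Agent.N129.FC

open Finset

/-- the product of the `F`-th powers of the elements -/
def TT (F : ℕ) (s : Finset ℕ) : ℕ := ∏ q ∈ s, q ^ F

lemma TT_inj (F : ℕ) (hF : F ≠ 0) (s s' : Finset ℕ) (hs : ∀ p ∈ s, p.Prime) (hs' : ∀ p ∈ s', p.Prime)
    (h : TT F s = TT F s') : s = s' := by
  unfold TT at h
  rw [Finset.prod_pow, Finset.prod_pow] at h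
  have h1 := Nat.pow_left_injective hF h
  rw [← Nat.primeFactors_prod hs, ← Nat.primeFactors_prod hs', h1]

lemma TT_pos (F : ℕ) (s : Finset ℕ) (hs : ∀ p ∈ s, p.Prime) : 1 ≤ TT F s :=
  Nat.one_le_iff_ne_zero.2 (Finset.prod_ne_zero_iff.2 fun p hp => pow_ne_zero _ (hs p hp).ne_zero)

/-- the set of primes `s` is reachable from `k0` -/
def Reach (A : Finset ℕ) (D F h k0 : ℕ) (J : ℕ → ℤ) (s : Finset ℕ) (k : ℕ) : Prop :=
  Hd A D k ∧ J k ≠ 0 ∧ k * TT F s ≤ k0 + h * TT F s ∧ k0 ≤ k * TT F s + h * TT F s

theorem count (A : Finset ℕ) (D F h k0 : ℕ) (J : ℕ → ℤ) (PP : Finset ℕ) (B s Tm lo hi : ℕ)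
    (hF : F ≠ 0) (hprime : ∀ q ∈ PP, q.Prime)
    (h0 : Hd A D k0) (hJ0 : J k0 ≠ 0)
    (hsmall : ∀ k ∈ A, lo ≤ k → J k ≠ 0 → (PP.filter (fun q : ℕ => (q : ℤ) ∣ J k)).card ≤ B)
    (hstep : ∀ q ∈ PP, ∀ k, Hd A D k → ¬ (q : ℤ) ∣ J k → lo ≤ k → k ≤ hi →
      ∃ k', Hd A D k' ∧ ¬ (q : ℤ) ∣ J k' ∧ k' * q ^ F ≤ k + h ∧ k ≤ k' * q ^ F + h)
    (hs : 4 * s ≤ PP.card) (hB : 4 * B ≤ PP.card)
    (hTm : ∀ S ⊆ PP, S.card ≤ s → TT F S ≤ Tm)
    (hlo : (lo + h) * Tm ≤ k0) (hhi : k0 + h ≤ hi) (hk0 : 3 * h * Tm * Tm < k0) :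
    2 ^ s ≤ A.card := by
  classical
  set RR : ℕ → Finset (Finset ℕ) := fun i =>
    (PP.powersetCard i).filter (fun S => ∃ k, Reach A D F h k0 J S k) with hRR
  have hmemRR : ∀ i S, S ∈ RR i ↔ (S ⊆ PP ∧ S.card = i) ∧ ∃ k, Reach A D F h k0 J S k := by
    intro i S
    rw [hRR, Finset.mem_filter, Finset.mem_powersetCard]
  have hpr : ∀ S ⊆ PP, ∀ p ∈ S, p.Prime := fun S hS p hp => hprime p (hS hp)
  have hbase : 1 ≤ (RR 0).card := by
    rw [Nat.one_le_iff_ne_zero, Finset.card_ne_zero]
    refine ⟨∅, (hmemRR 0 ∅).2 ⟨⟨Finset.empty_subset _, Finset.card_empty⟩, k0, h0, hJ0, ?_, ?_⟩⟩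
    · simp [TT]
    · simp [TT]
  have hrec : ∀ i, i + 1 ≤ s → 2 * (RR i).card ≤ (RR (i + 1)).card := by
    intro i hi1
    have key : (RR i).card * (PP.card - i - B) ≤ (RR (i + 1)).card * (i + 1) := by
      apply Finset.card_mul_le_card_mul (fun (S S' : Finset ℕ) => S ⊆ S')
      · intro S hS
        obtain ⟨⟨hSP, hSc⟩, k, hHd, hJ, hk1, hk2⟩ := (hmemRR i S).1 hS
        have hTS := hTm S hSP (by omega)
        have hT1 := TT_pos F S (hpr S hSP)
        have hklo : lo ≤ k := by
          have h1 : (lo + h) * TT F S ≤ (k + h) * TT F S := by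
            calc (lo + h) * TT F S ≤ (lo + h) * Tm := Nat.mul_le_mul_left _ hTS
              _ ≤ k0 := hlo
              _ ≤ _ := by rw [add_mul]; exact hk2
          have := Nat.le_of_mul_le_mul_right h1 hT1
          omega
        have hkhi : k ≤ hi := by
          have h1 : k * TT F S ≤ (k0 + h) * TT F S := by
            have : k0 * 1 ≤ k0 * TT F S := Nat.mul_le_mul_left _ hT1
            rw [add_mul]
            omega
          have := Nat.le_of_mul_le_mul_right h1 hT1
          omega
        set G := (PP \ S) \ (PP.filter (fun q : ℕ => (q : ℤ) ∣ J k)) with hG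
        have hGc : PP.card - i - B ≤ G.card := by
          have h1 : (PP \ S).card - (PP.filter (fun q : ℕ => (q : ℤ) ∣ J k)).card ≤ G.card := by
            rw [hG]; exact Finset.le_card_sdiff _ _
          have h2 := Finset.card_sdiff_of_subset hSP
          have h3 := hsmall k hHd.1 hklo hJ
          omega
        refine hGc.trans ?_
        apply Finset.card_le_card_of_injOn (fun q => insert q S)
        · intro q hq
          rw [Finset.mem_coe, hG, Finset.mem_sdiff, Finset.mem_sdiff, Finset.mem_filter] at hq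
          obtain ⟨⟨hqP, hqS⟩, hq3⟩ := hq
          have hqJ : ¬ (q : ℤ) ∣ J k := fun hd => hq3 ⟨hqP, hd⟩
          obtain ⟨k', c1, c2, c3, c4⟩ := hstep q hqP k hHd hqJ hklo hkhi
          rw [Finset.mem_coe, Finset.mem_bipartiteAbove]
          refine ⟨(hmemRR _ _).2 ⟨⟨Finset.insert_subset hqP hSP, ?_⟩, k', c1, ?_, ?_, ?_⟩,
            Finset.subset_insert _ _⟩
          · rw [Finset.card_insert_of_notMem hqS, hSc]
          · intro h; apply c2; rw [h]; exact dvd_zero _
          · have e : TT F (insert q S) = q ^ F * TT F S := by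
              unfold TT; rw [Finset.prod_insert hqS]
            have hq2 : 2 ≤ q ^ F := by
              have := (hprime q hqP).two_le
              calc 2 ≤ q := this
                _ = q ^ 1 := (pow_one q).symm
                _ ≤ q ^ F := Nat.pow_le_pow_right (by omega) (by omega)
            rw [e]
            have d1 : k' * q ^ F * TT F S ≤ (k + h) * TT F S := Nat.mul_le_mul_right _ c3
            have d2 : h * TT F S * 2 ≤ h * TT F S * q ^ F := Nat.mul_le_mul_left _ hq2
            nlinarith
          · have e : TT F (insert q S) = q ^ F * TT F S := by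
              unfold TT; rw [Finset.prod_insert hqS]
            have hq2 : 2 ≤ q ^ F := by
              have := (hprime q hqP).two_le
              calc 2 ≤ q := this
                _ = q ^ 1 := (pow_one q).symm
                _ ≤ q ^ F := Nat.pow_le_pow_right (by omega) (by omega)
            rw [e]
            have d1 : k * TT F S ≤ (k' * q ^ F + h) * TT F S := Nat.mul_le_mul_right _ c4
            have d2 : h * TT F S * 2 ≤ h * TT F S * q ^ F := Nat.mul_le_mul_left _ hq2
            nlinarith
        · intro q hq q' hq' hqq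
          rw [Finset.mem_coe, hG, Finset.mem_sdiff, Finset.mem_sdiff] at hq hq'
          have h1 : q ∈ insert q' S := by
            have h2 : insert q S = insert q' S := hqq
            rw [← h2]; exact Finset.mem_insert_self _ _
          rcases Finset.mem_insert.1 h1 with h | h
          · exact h
          · exact absurd h hq.1.2
      · intro S' hS'
        obtain ⟨⟨hSP, hSc⟩, _⟩ := (hmemRR (i + 1) S').1 hS'
        have hsub : (RR i).bipartiteBelow (fun (S S' : Finset ℕ) => S ⊆ S') S' ⊆
            S'.powersetCard i := by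
          intro S hS
          rw [Finset.mem_bipartiteBelow] at hS
          rw [Finset.mem_powersetCard]
          exact ⟨hS.2, ((hmemRR i S).1 hS.1).1.2⟩
        refine (Finset.card_le_card hsub).trans ?_
        rw [Finset.card_powersetCard, hSc]
        simp
    have h2 : 2 * (i + 1) ≤ PP.card - i - B := by omega
    have h3 : (RR i).card * (2 * (i + 1)) ≤ (RR (i + 1)).card * (i + 1) :=
      (Nat.mul_le_mul_left _ h2).trans key
    have h4 : (2 * (RR i).card) * (i + 1) ≤ (RR (i + 1)).card * (i + 1) := by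
      calc (2 * (RR i).card) * (i + 1) = (RR i).card * (2 * (i + 1)) := by ring
        _ ≤ _ := h3
    exact Nat.le_of_mul_le_mul_right h4 (Nat.succ_pos _)
  have hall : ∀ i, i ≤ s → 2 ^ i ≤ (RR i).card := by
    intro i
    induction i with
    | zero => intro _; simpa using hbase
    | succ i ih =>
      intro hi1
      have h1 := ih (by omega)
      have h2 := hrec i hi1
      rw [pow_succ]; omega
  refine (hall s le_rfl).trans ?_
  have hch : ∀ S ∈ RR s, ∃ k, Reach A D F h k0 J S k := fun S hS => ((hmemRR s S).1 hS).2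
  choose! κ hκ using hch
  apply Finset.card_le_card_of_injOn κ
  · intro S hS
    exact (hκ S hS).1.1
  · intro S hS S' hS' hSS
    rw [Finset.mem_coe] at hS hS'
    have h1 := hκ S hS
    have h2 := hκ S' hS'
    rw [← hSS] at h2
    have m1 := ((hmemRR s S).1 hS).1
    have m2 := ((hmemRR s S').1 hS').1
    have t1 := hTm S m1.1 m1.2.le
    have t2 := hTm S' m2.1 m2.2.le
    by_contra hne
    have hT : TT F S ≠ TT F S' := fun h =>
      hne (TT_inj F hF S S' (hpr S m1.1) (hpr S' m2.1) h)
    obtain ⟨-, -, a1, a2⟩ := h1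
    obtain ⟨-, -, b1, b2⟩ := h2
    generalize κ S = k at *
    generalize TT F S = T at *
    generalize TT F S' = T' at *
    -- `k ≤ 2 h Tm`
    have hk : k ≤ 2 * h * Tm := by
      have hh1 : h * T ≤ h * Tm := Nat.mul_le_mul_left _ t1
      have hh2 : h * T' ≤ h * Tm := Nat.mul_le_mul_left _ t2
      rcases lt_or_gt_of_ne hT with hlt | hlt
      · have h3 : k * (T + 1) ≤ k * T' := Nat.mul_le_mul_left _ hlt
        rw [mul_add, mul_one] at h3
        have : 2 * h * Tm = h * Tm + h * Tm := by ring
        omega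
      · have h3 : k * (T' + 1) ≤ k * T := Nat.mul_le_mul_left _ hlt
        rw [mul_add, mul_one] at h3
        have : 2 * h * Tm = h * Tm + h * Tm := by ring
        omega
    have h5 : k0 ≤ 3 * h * Tm * Tm := by
      have c1 : k * T ≤ 2 * h * Tm * Tm := Nat.mul_le_mul hk t1
      have c2 : h * T ≤ h * Tm * Tm := by
        have hTm1 : h * T * 1 ≤ h * Tm * Tm := by
          rcases Nat.eq_zero_or_pos Tm with h0 | h0
          · rw [h0] at t1
            have : T = 0 := by omega
            rw [this]; simp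
          · exact Nat.mul_le_mul (Nat.mul_le_mul_left _ t1) h0
        omega
      have : 3 * h * Tm * Tm = 2 * h * Tm * Tm + h * Tm * Tm := by ring
      omega
    omega

end Pool.Agent.N129.FC
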