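import Pool.Agent.N129.FC.Trans

/-!
The explicit family `n_k = ⌊exp((log k)^C)⌋`, `C > 2`.
-/

set_option autoImplicit false

namespace Pool.Agent.N129.FC

open Finset Filter Topology

lemma three_log : 1 ≤ Real.log 3 := by
  rw [Real.le_log_iff_exp_le (by norm_num)]
  have := Real.exp_one_lt_d9
  linarith

lemma v_ge (C t : ℝ) (hC : 2 < C) (ht : 3 ≤ t) : Real.log t ≤ (Real.log t) ^ C := by
  have h1 : 1 ≤ Real.log t := three_log.trans (Real.log_le_log (by norm_num) ht)
  calc Real.log t = (Real.log t) ^ (1 : ℝ) := (Real.rpow_one _).symm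
    _ ≤ _ := Real.rpow_le_rpow_of_exponent_le h1 (by linarith)

lemma F_step (C t : ℝ) (hC : 2 < C) (ht : 3 ≤ t) :
    2 * Real.exp ((Real.log t) ^ C) / (t + 1) ≤
      Real.exp ((Real.log (t + 1)) ^ C) - Real.exp ((Real.log t) ^ C) := by
  have ht0 : 0 < t := by linarith
  set l := Real.log t with hl
  set l' := Real.log (t + 1) with hl'
  have h1 : 1 ≤ l := three_log.trans (Real.log_le_log (by norm_num) ht)
  have hdiff : 1 / (t + 1) ≤ l' - l := by
    have h2 : Real.log (t / (t + 1)) ≤ t / (t + 1) - 1 := Real.log_le_sub_one_of_pos (by positivity)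
    rw [Real.log_div ht0.ne' (by linarith)] at h2
    have h3 : t / (t + 1) - 1 = -(1 / (t + 1)) := by field_simp; ring
    rw [h3] at h2
    linarith
  have hpos : 0 < 1 / (t + 1) := by positivity
  set s := (l' - l) / l with hs
  have hs0 : 0 ≤ s := div_nonneg (by linarith) (by linarith)
  have h4 : l' = l * (1 + s) := by rw [hs]; field_simp; ring
  have h5 : 1 + C * s ≤ (1 + s) ^ C := one_add_mul_self_le_rpow_one_add (by linarith) (by linarith)
  have hv : l ≤ l ^ C := v_ge C t hC ht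
  have h6 : l ^ C + 2 / (t + 1) ≤ l' ^ C := by
    rw [h4, Real.mul_rpow (by linarith) (by linarith)]
    have h7 : l ^ C * (1 + C * s) ≤ l ^ C * (1 + s) ^ C :=
      mul_le_mul_of_nonneg_left h5 (by linarith)
    have h8 : l' - l = l * s := by rw [h4]; ring
    have h9 : l * s ≤ l ^ C * s := mul_le_mul_of_nonneg_right hv hs0
    have h10 : 2 * (l ^ C * s) ≤ C * (l ^ C * s) :=
      mul_le_mul_of_nonneg_right hC.le (mul_nonneg (by linarith) hs0)
    have h11 : 2 / (t + 1) = 2 * (1 / (t + 1)) := by ring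
    nlinarith
  have h12 : Real.exp (l ^ C) * (l' ^ C - l ^ C) ≤ Real.exp (l' ^ C) - Real.exp (l ^ C) := by
    have h13 := Real.add_one_le_exp (l' ^ C - l ^ C)
    have h14 : Real.exp (l' ^ C) = Real.exp (l ^ C) * Real.exp (l' ^ C - l ^ C) := by
      rw [← Real.exp_add]; congr 1; ring
    have h15 := mul_le_mul_of_nonneg_left h13 (Real.exp_pos (l ^ C)).le
    rw [h14]
    linarith
  refine le_trans ?_ h12
  have h16 : 2 * Real.exp (l ^ C) / (t + 1) = Real.exp (l ^ C) * (2 / (t + 1)) := by ring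
  rw [h16]
  exact mul_le_mul_of_nonneg_left (by linarith) (Real.exp_pos _).le

/-- the exponents -/
noncomputable def nC (C : ℝ) (k : ℕ) : ℕ := ⌊Real.exp ((Real.log ((k : ℝ) + 3)) ^ C)⌋₊

lemma nC_mono (C : ℝ) (hC : 2 < C) : StrictMono (nC C) := by
  apply strictMono_nat_of_lt_succ
  intro k
  unfold nC
  set t : ℝ := (k : ℝ) + 3 with ht
  have ht3 : 3 ≤ t := by have : (0 : ℝ) ≤ k := Nat.cast_nonneg k; linarith
  have e : ((k + 1 : ℕ) : ℝ) + 3 = t + 1 := by push_cast; rw [ht]; ring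
  rw [e]
  have h1 := F_step C t hC ht3
  have h2 : t ≤ Real.exp ((Real.log t) ^ C) := by
    calc t = Real.exp (Real.log t) := (Real.exp_log (by linarith)).symm
      _ ≤ _ := Real.exp_le_exp.2 (v_ge C t hC ht3)
  have h3 : 1 ≤ 2 * Real.exp ((Real.log t) ^ C) / (t + 1) := by
    rw [le_div_iff₀ (by linarith)]; linarith
  have h4 : Real.exp ((Real.log t) ^ C) + 1 ≤ Real.exp ((Real.log (t + 1)) ^ C) := by linarith
  calc ⌊Real.exp ((Real.log t) ^ C)⌋₊ < ⌊Real.exp ((Real.log t) ^ C)⌋₊ + 1 := Nat.lt_succ_self _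
    _ = ⌊Real.exp ((Real.log t) ^ C) + 1⌋₊ := (Nat.floor_add_one (Real.exp_pos _).le).symm
    _ ≤ _ := Nat.floor_le_floor h4

theorem family (b : ℕ) (hb : 2 ≤ b) (C : ℝ) (hC : 2 < C) (ε : ℕ → ℤ) (M : ℤ)
    (hε : ∀ k, ε k ≠ 0 ∧ |ε k| ≤ M) :
    Transcendental ℚ (∑' k, (ε k : ℝ) / (b : ℝ) ^ (nC C k)) := by
  have hC0 : 0 < C := by linarith
  have hC1 : 1 / C < 1 / 2 := one_div_lt_one_div_of_lt (by norm_num) hC
  obtain ⟨γ, hγa, hγb⟩ : ∃ γ, 1 / C < γ ∧ γ < 1 / 2 := exists_between hC1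
  obtain ⟨β, hβa, hβb⟩ : ∃ β, 2 * γ < β ∧ β < 1 := exists_between (by linarith)
  have hγ0 : 0 < γ := lt_trans (by positivity) hγa
  refine crit b hb β γ hβb.le hγ0 (by linarith) (nC C) (nC_mono C hC) ε M hε ?_ ?_
  · -- gaps
    have hv : Tendsto (fun k : ℕ => (Real.log ((k : ℝ) + 3)) ^ C) atTop atTop := by
      refine (tendsto_rpow_atTop hC0).comp (Real.tendsto_log_atTop.comp ?_)
      exact tendsto_atTop_add_const_right _ _ (tendsto_natCast_atTop_atTop (R := ℝ))
    have hev : ∀ᶠ v : ℝ in atTop, v ^ β + v ^ (1 / C) + 1 ≤ v := by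
      filter_upwards [ev_mul 3 β 1 hβb, ev_mul 3 (1 / C) 1 (by linarith),
        eventually_ge_atTop (3 : ℝ)] with v h1 h2 h3
      rw [Real.rpow_one] at h1 h2
      linarith
    filter_upwards [hv.eventually hev] with k hk
    set t : ℝ := (k : ℝ) + 3 with ht
    have ht3 : 3 ≤ t := by have : (0 : ℝ) ≤ k := Nat.cast_nonneg k; linarith
    have hl1 : 1 ≤ Real.log t := three_log.trans (Real.log_le_log (by norm_num) ht3)
    have e : ((k + 1 : ℕ) : ℝ) + 3 = t + 1 := by push_cast; rw [ht]; ring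
    have h1 := F_step C t hC ht3
    have h2 : ((nC C k : ℕ) : ℝ) ≤ Real.exp ((Real.log t) ^ C) := Nat.floor_le (Real.exp_pos _).le
    have h3 : Real.exp ((Real.log (t + 1)) ^ C) - 1 ≤ ((nC C (k + 1) : ℕ) : ℝ) := by
      have := Nat.lt_floor_add_one (Real.exp ((Real.log (((k + 1 : ℕ) : ℝ) + 3)) ^ C))
      unfold nC
      rw [e] at this ⊢
      linarith
    have hnpos : (1 : ℝ) ≤ ((nC C k : ℕ) : ℝ) := by
      have h5 : 1 ≤ nC C k := by
        unfold nC
        apply Nat.le_floor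
        rw [Nat.cast_one]
        exact Real.one_le_exp (by positivity)
      exact_mod_cast h5
    set v := (Real.log t) ^ C with hvdef
    have h6 : Real.log (nC C k : ℕ) ≤ v := by
      calc Real.log (nC C k : ℕ) ≤ Real.log (Real.exp v) := Real.log_le_log (by linarith) h2
        _ = v := Real.log_exp _
    have h7 : Real.exp ((Real.log (nC C k : ℕ)) ^ β) ≤ Real.exp (v ^ β) :=
      Real.exp_le_exp.2 (Real.rpow_le_rpow (Real.log_nonneg hnpos) h6 (by linarith))
    have h8 : v ^ (1 / C) = Real.log t := by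
      rw [hvdef, ← Real.rpow_mul (by linarith), mul_one_div_cancel hC0.ne', Real.rpow_one]
    rw [h8] at hk
    -- `exp (v^β) + 1 ≤ 2 exp v / (t + 1)`
    have h9 : Real.exp (v ^ β) + 1 ≤ Real.exp (v - Real.log t) := by
      have hvb : 0 ≤ v ^ β := by positivity
      have h10 : Real.exp (v ^ β + 1) ≤ Real.exp (v - Real.log t) := Real.exp_le_exp.2 (by linarith)
      rw [Real.exp_add] at h10
      have h11 : 1 ≤ Real.exp (v ^ β) := Real.one_le_exp hvb
      have h12 : (2 : ℝ) ≤ Real.exp 1 := by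
        have := Real.add_one_le_exp (1 : ℝ)
        linarith
      have h13 : Real.exp (v ^ β) * 2 ≤ Real.exp (v ^ β) * Real.exp 1 :=
        mul_le_mul_of_nonneg_left h12 (by linarith)
      linarith
    have h14 : Real.exp (v - Real.log t) ≤ 2 * Real.exp v / (t + 1) := by
      rw [Real.exp_sub, Real.exp_log (by linarith), div_le_div_iff₀ (by linarith) (by linarith)]
      have := Real.exp_pos v
      nlinarith
    linarith
  · -- count
    apply Filter.Eventually.frequently
    have hlog : Tendsto (fun N : ℕ => Real.log N) atTop atTop :=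
      Real.tendsto_log_atTop.comp (tendsto_natCast_atTop_atTop (R := ℝ))
    filter_upwards [hlog.eventually (ev_mul (2 ^ (1 / C)) (1 / C) γ hγa),
      hlog.eventually_ge_atTop 1, eventually_ge_atTop 2] with N h1 h2 h3
    set ℓ := Real.log N with hℓ
    set E := Real.exp ((Real.log ((N : ℝ) + 1)) ^ (1 / C)) with hE
    have hN2 : (2 : ℝ) ≤ N := by exact_mod_cast h3
    have hlogN1 : Real.log ((N : ℝ) + 1) ≤ 2 * ℓ := by
      have : Real.log ((N : ℝ) + 1) ≤ Real.log ((N : ℝ) ^ 2) :=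
        Real.log_le_log (by linarith) (by nlinarith)
      rwa [Real.log_pow, Nat.cast_ofNat] at this
    have hlogN0 : 0 ≤ Real.log ((N : ℝ) + 1) := Real.log_nonneg (by linarith)
    have hE1 : E ≤ Real.exp (ℓ ^ γ) := by
      apply Real.exp_le_exp.2
      calc (Real.log ((N : ℝ) + 1)) ^ (1 / C) ≤ (2 * ℓ) ^ (1 / C) :=
            Real.rpow_le_rpow hlogN0 hlogN1 (by positivity)
        _ = 2 ^ (1 / C) * ℓ ^ (1 / C) := Real.mul_rpow (by norm_num) (by linarith)
        _ ≤ _ := h1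
    have hmem : ∀ k : ℕ, nC C k ≤ N → (k : ℝ) + 3 < E := by
      intro k hk
      set t : ℝ := (k : ℝ) + 3 with ht
      have ht3 : 3 ≤ t := by have : (0 : ℝ) ≤ k := Nat.cast_nonneg k; linarith
      have h4 : Real.exp ((Real.log t) ^ C) < (N : ℝ) + 1 := by
        have h5 := Nat.lt_floor_add_one (Real.exp ((Real.log t) ^ C))
        have h6 : ((nC C k : ℕ) : ℝ) ≤ N := by exact_mod_cast hk
        have h7 : ((nC C k : ℕ) : ℝ) = ((⌊Real.exp ((Real.log t) ^ C)⌋₊ : ℕ) : ℝ) := rfl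
        linarith
      have hl1 : 1 ≤ Real.log t := three_log.trans (Real.log_le_log (by norm_num) ht3)
      have h5 : (Real.log t) ^ C < Real.log ((N : ℝ) + 1) := by
        rw [← Real.exp_lt_exp, Real.exp_log (by linarith)]
        exact h4
      have h6 : Real.log t < (Real.log ((N : ℝ) + 1)) ^ (1 / C) := by
        have h7 := Real.rpow_lt_rpow (by positivity) h5 (show 0 < 1 / C by positivity)
        rwa [← Real.rpow_mul (by linarith), mul_one_div_cancel hC0.ne', Real.rpow_one] at h7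
      calc t = Real.exp (Real.log t) := (Real.exp_log (by linarith)).symm
        _ < E := Real.exp_lt_exp.2 h6
    have hsub : {k : ℕ | nC C k ≤ N} ⊆ Set.Iio ⌈E - 3⌉₊ := by
      intro k hk
      have h4 := hmem k hk
      rw [Set.mem_Iio]
      by_contra hcon
      push Not at hcon
      have h5 : E - 3 ≤ (⌈E - 3⌉₊ : ℝ) := Nat.le_ceil _
      have h6 : ((⌈E - 3⌉₊ : ℕ) : ℝ) ≤ k := by exact_mod_cast hcon
      linarith
    have hcard : Set.ncard {k : ℕ | nC C k ≤ N} ≤ ⌈E - 3⌉₊ := by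
      refine (Set.ncard_le_ncard hsub (Set.finite_Iio _)).trans ?_
      rw [← Finset.coe_Iio, Set.ncard_coe_finset, Nat.card_Iio]
    have h4 : ((⌈E - 3⌉₊ : ℕ) : ℝ) < E := by
      have hE0 : 0 < E := Real.exp_pos _
      rcases le_or_gt (E - 3) 0 with h | h
      · rw [Nat.ceil_eq_zero.2 h]; simpa using hE0
      · have := Nat.ceil_lt_add_one h.le
        linarith
    have h5 : ((Set.ncard {k : ℕ | nC C k ≤ N} : ℕ) : ℝ) ≤ ((⌈E - 3⌉₊ : ℕ) : ℝ) := by
      exact_mod_cast hcard
    linarith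

end Pool.Agent.N129.FC
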