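import Pool.Agent.N129.FC.Main
import Pool.Agent.W44.ExpTwoAll

/-!
From sequences to expansions and digits.
-/

set_option autoImplicit false

namespace Pool.Agent.N129.FC

open Finset Filter Topology
open Pool.Agent.H393R2.DC (S Pol dlt V Dn digit floor_step)
open Pool.Agent.W44 (exists_monic)

lemma dlt_mul (b : ℕ) (S : ℤ) (Y : ℕ → ℤ) (k : ℕ) :
    dlt b (fun n => S * Y n) k = S * dlt b Y k := by
  cases k with
  | zero => simp [dlt]
  | succ k => simp only [dlt]; ring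

theorem gen_seq (x : ℝ) (halg : IsAlgebraic ℚ x) (hirr : Irrational x) (b : ℕ) (hb : 2 ≤ b)
    (T : ℤ) (hT : T ≠ 0) (C0 : ℝ) (Y : ℕ → ℤ)
    (hY : ∀ K, |(Y K : ℝ) - (b : ℝ) ^ K * (T * x)| ≤ C0)
    (α γ : ℝ) (hγ0 : 0 < γ) (hγ2 : γ < 1 / 2) (hαγ : α + γ < 1) :
    ∃ X : ℝ, ∀ (N : ℕ) (ψ : ℝ), X ≤ ψ → ψ ≤ Real.log N →
      (∀ k k' : ℕ, 1 ≤ k → N * Real.exp (-ψ) ≤ k → k < k' → k' ≤ N → dlt b Y k ≠ 0 →
        dlt b Y k' ≠ 0 → (k' : ℝ) - k ≤ ψ ^ α ∨ Real.exp ψ ≤ (k' : ℝ) - k) →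
      Real.exp (ψ ^ γ) ≤ (((Icc 1 N).filter (fun k => dlt b Y k ≠ 0)).card : ℝ) := by
  have halg1 : IsAlgebraic ℚ ((T : ℝ) * x) := by
    have h1 : IsAlgebraic ℚ ((T : ℝ)) := isAlgebraic_intCast (R := ℚ) (A := ℝ) T
    exact h1.mul halg
  have hirr1 : Irrational ((T : ℝ) * x) := hirr.intCast_mul hT
  obtain ⟨S, hS, f, hm, hfi, hd, hroot⟩ := exists_monic _ halg1 hirr1
  set U : ℕ → ℤ := fun n => S * Y n with hU
  have hUa : ∀ n, |(U n : ℝ) - (b : ℝ) ^ n * (S * (T * x))| ≤ |(S : ℝ)| * C0 := by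
    intro n
    have e : (U n : ℝ) - (b : ℝ) ^ n * (S * (T * x)) = S * ((Y n : ℝ) - (b : ℝ) ^ n * (T * x)) := by
      simp only [hU]; push_cast; ring
    rw [e, abs_mul]
    exact mul_le_mul_of_nonneg_left (hY n) (by positivity)
  -- exponents
  obtain ⟨γ1, hγ1a, hγ1b⟩ : ∃ γ1, γ < γ1 ∧ γ1 < min (1 / 2) (1 - α) :=
    exists_between (lt_min hγ2 (by linarith))
  have hγ1c : γ1 < 1 / 2 := lt_of_lt_of_le hγ1b (min_le_left _ _)
  have hγ1d : γ1 < 1 - α := lt_of_lt_of_le hγ1b (min_le_right _ _)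
  obtain ⟨X, hX⟩ := main_seq f hm hfi hd b hb _ _ hroot U hUa (max α γ1) γ1 (by linarith)
    (le_max_right _ _) (by
      rcases max_cases α γ1 with h | h <;> rw [h.1] <;> linarith)
  obtain ⟨X2, hX2⟩ := eventually_atTop.1 ((ev_mul 2 γ γ1 hγ1a).and (eventually_ge_atTop (1 : ℝ)))
  refine ⟨max X X2, fun N ψ hψ hψN hdist => ?_⟩
  obtain ⟨h2, h1⟩ := hX2 ψ ((le_max_right _ _).trans hψ)
  have hDnU : ∀ k, k ∈ Dn b U N ↔ k ≤ N ∧ dlt b Y k ≠ 0 := by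
    intro k
    rw [mem_Dn]
    have : dlt b U k = S * dlt b Y k := dlt_mul b S Y k
    rw [this]
    constructor
    · rintro ⟨a1, a2⟩; exact ⟨a1, right_ne_zero_of_mul a2⟩
    · rintro ⟨a1, a2⟩; exact ⟨a1, mul_ne_zero hS a2⟩
  have hNpos : 0 < (N : ℝ) := by
    by_contra h
    have h0 : (N : ℝ) = 0 := le_antisymm (not_lt.1 h) (Nat.cast_nonneg _)
    rw [h0, Real.log_zero] at hψN
    linarith
  have h3 := hX N ψ ((le_max_left _ _).trans hψ) hψN (by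
    intro k hk k' hk' hNk hkk
    rw [hDnU] at hk hk'
    have hk1 : 1 ≤ k := by
      have : 0 < (N : ℝ) * Real.exp (-ψ) := mul_pos hNpos (Real.exp_pos _)
      have : (0 : ℝ) < k := lt_of_lt_of_le this hNk
      exact_mod_cast this
    rcases hdist k k' hk1 hNk hkk hk'.1 hk.2 hk'.2 with h | h
    · left
      exact h.trans (Real.rpow_le_rpow_of_exponent_le h1 (le_max_left _ _))
    · exact Or.inr h)
  have h4 : (Dn b U N).card ≤ ((Icc 1 N).filter (fun k => dlt b Y k ≠ 0)).card + 1 := by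
    have hsub : Dn b U N ⊆ insert 0 ((Icc 1 N).filter (fun k => dlt b Y k ≠ 0)) := by
      intro k hk
      rw [hDnU] at hk
      rw [Finset.mem_insert, Finset.mem_filter, Finset.mem_Icc]
      rcases Nat.eq_zero_or_pos k with h | h
      · exact Or.inl h
      · exact Or.inr ⟨⟨h, hk.1⟩, hk.2⟩
    exact (Finset.card_le_card hsub).trans (Finset.card_insert_le _ _)
  have h5 : ((Dn b U N).card : ℝ) ≤ (((Icc 1 N).filter (fun k => dlt b Y k ≠ 0)).card : ℝ) + 1 := by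
    exact_mod_cast h4
  have h6 : Real.exp (ψ ^ γ) + 1 ≤ Real.exp (ψ ^ γ1) := by
    have hg : 1 ≤ ψ ^ γ := Real.one_le_rpow h1 hγ0.le
    have h7 : ψ ^ γ + 1 ≤ ψ ^ γ1 := by linarith
    have h8 : Real.exp (ψ ^ γ + 1) ≤ Real.exp (ψ ^ γ1) := Real.exp_le_exp.2 h7
    rw [Real.exp_add] at h8
    have h9 : 1 ≤ Real.exp (ψ ^ γ) := Real.one_le_exp (by linarith)
    have h10 : (2 : ℝ) ≤ Real.exp 1 := by
      have := Real.add_one_le_exp (1 : ℝ)
      linarith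
    have h11 : Real.exp (ψ ^ γ) * 2 ≤ Real.exp (ψ ^ γ) * Real.exp 1 :=
      mul_le_mul_of_nonneg_left h10 (by linarith)
    linarith
  linarith

/-- expansions with bounded integer digits -/
theorem expansions (x : ℝ) (halg : IsAlgebraic ℚ x) (hirr : Irrational x) (b : ℕ) (hb : 2 ≤ b)
    (g : ℕ → ℤ) (M : ℤ) (hg : ∀ k, |g k| ≤ M)
    (hsum : HasSum (fun k : ℕ => (g k : ℝ) / (b : ℝ) ^ k) x)
    (α γ : ℝ) (hγ0 : 0 < γ) (hγ2 : γ < 1 / 2) (hαγ : α + γ < 1) :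
    ∃ X : ℝ, ∀ (N : ℕ) (ψ : ℝ), X ≤ ψ → ψ ≤ Real.log N →
      (∀ k k' : ℕ, N * Real.exp (-ψ) ≤ k → k < k' → k' ≤ N → g k ≠ 0 → g k' ≠ 0 →
        (k' : ℝ) - k ≤ ψ ^ α ∨ Real.exp ψ ≤ (k' : ℝ) - k) →
      Real.exp (ψ ^ γ) ≤ (((Icc 1 N).filter (fun k => g k ≠ 0)).card : ℝ) := by
  have hb2 : (2 : ℝ) ≤ b := by exact_mod_cast hb
  have hb0 : (0 : ℝ) < b := by linarith
  set W : ℕ → ℤ := fun n => ∑ k ∈ range (n + 1), g k * (b : ℤ) ^ (n - k) with hW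
  have hWs : ∀ n, W (n + 1) = b * W n + g (n + 1) := by
    intro n
    simp only [hW]
    rw [Finset.sum_range_succ, Finset.mul_sum]
    congr 1
    · apply Finset.sum_congr rfl
      intro k hk
      have : k ≤ n := Nat.lt_succ_iff.1 (Finset.mem_range.1 hk)
      rw [show n + 1 - k = (n - k) + 1 by omega, pow_succ]; ring
    · simp
  have hWa : ∀ n, |(W n : ℝ) - (b : ℝ) ^ n * (((1 : ℤ) : ℝ) * x)| ≤ M := by
    intro n
    rw [Int.cast_one, one_mul]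
    have h1 := (hasSum_nat_add_iff' (n + 1)).2 hsum
    have h2 := h1.mul_left ((b : ℝ) ^ n)
    have h3 : (b : ℝ) ^ n * (x - ∑ i ∈ range (n + 1), (g i : ℝ) / (b : ℝ) ^ i) =
        (b : ℝ) ^ n * x - W n := by
      rw [mul_sub]
      congr 1
      simp only [hW]
      push_cast
      rw [Finset.mul_sum]
      apply Finset.sum_congr rfl
      intro k hk
      have hk' : k ≤ n := Nat.lt_succ_iff.1 (Finset.mem_range.1 hk)
      have e : (b : ℝ) ^ n = (b : ℝ) ^ (n - k) * (b : ℝ) ^ k := by rw [← pow_add]; congr 1; omega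
      rw [e]
      have : (b : ℝ) ^ k ≠ 0 := by positivity
      field_simp
    rw [h3] at h2
    have h4 := HasSum.norm_le_of_bounded h2 (hasSum_geometric_two' (M : ℝ)) (by
      intro k
      have hgk : |(g (k + (n + 1)) : ℝ)| ≤ M := by exact_mod_cast hg (k + (n + 1))
      have hM0 : (0 : ℝ) ≤ M := (abs_nonneg _).trans hgk
      have e : (b : ℝ) ^ n * ((g (k + (n + 1)) : ℝ) / (b : ℝ) ^ (k + (n + 1))) =
          (g (k + (n + 1)) : ℝ) / (b : ℝ) ^ (k + 1) := by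
        rw [show k + (n + 1) = n + (k + 1) by ring, pow_add]
        field_simp
      rw [e, Real.norm_eq_abs, abs_div, abs_of_pos (show (0 : ℝ) < (b : ℝ) ^ (k + 1) by positivity),
        div_div]
      apply div_le_div₀ hM0 hgk (by positivity)
      rw [← pow_succ']
      exact pow_le_pow_left₀ (by norm_num) hb2 _)
    rw [Real.norm_eq_abs, abs_sub_comm] at h4
    exact h4
  have hd : ∀ k, 1 ≤ k → dlt b W k = g k := by
    intro k hk
    obtain ⟨k, rfl⟩ : ∃ j, k = j + 1 := ⟨k - 1, by omega⟩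
    simp only [dlt]
    rw [hWs k]; ring
  obtain ⟨X, hX⟩ := gen_seq x halg hirr b hb 1 one_ne_zero M W hWa α γ hγ0 hγ2 hαγ
  refine ⟨X, fun N ψ h1 h2 h3 => ?_⟩
  refine (hX N ψ h1 h2 (fun k k' hk0 hk1 hkk hk' hgk hgk' => ?_)).trans (le_of_eq ?_)
  · rw [hd k hk0] at hgk
    rw [hd k' (by omega)] at hgk'
    exact h3 k k' hk1 hkk hk' hgk hgk'
  · congr 2
    apply Finset.filter_congr
    intro k hk
    rw [hd k (Finset.mem_Icc.1 hk).1]

/-- digit changes: `k ≥ 1` with digit number `k` different from digit number `k + 1` -/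
theorem changes (x : ℝ) (halg : IsAlgebraic ℚ x) (hirr : Irrational x) (b : ℕ) (hb : 2 ≤ b)
    (α γ : ℝ) (hγ0 : 0 < γ) (hγ2 : γ < 1 / 2) (hαγ : α + γ < 1) :
    ∃ X : ℝ, ∀ (N : ℕ) (ψ : ℝ), X ≤ ψ → ψ ≤ Real.log N →
      (∀ k k' : ℕ, N * Real.exp (-ψ) ≤ k → k < k' → k' ≤ N →
        digit b x k ≠ digit b x (k + 1) → digit b x k' ≠ digit b x (k' + 1) →
        (k' : ℝ) - k ≤ ψ ^ α ∨ Real.exp ψ ≤ (k' : ℝ) - k) →
      Real.exp (ψ ^ γ) ≤
        (((Icc 1 N).filter (fun k => digit b x k ≠ digit b x (k + 1))).card : ℝ) := by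
  have hb2 : (2 : ℝ) ≤ b := by exact_mod_cast hb
  have hb0 : (0 : ℝ) < b := by linarith
  set W : ℕ → ℤ := fun n => ⌊(b : ℝ) ^ n * x⌋ with hW
  have hWs : ∀ n, W (n + 1) = b * W n + digit b x (n + 1) := fun n => floor_step b hb x n
  set Y : ℕ → ℤ := fun n => W (n + 1) - W n with hY
  have hYa : ∀ n, |(Y n : ℝ) - (b : ℝ) ^ n * ((((b : ℤ) - 1 : ℤ) : ℝ) * x)| ≤ 1 := by
    intro n
    have e : (Y n : ℝ) - (b : ℝ) ^ n * ((((b : ℤ) - 1 : ℤ) : ℝ) * x) =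
        ((W (n + 1) : ℝ) - (b : ℝ) ^ (n + 1) * x) - ((W n : ℝ) - (b : ℝ) ^ n * x) := by
      simp only [hY]; push_cast; rw [pow_succ]; ring
    rw [e]
    have h1 := Int.floor_le ((b : ℝ) ^ (n + 1) * x)
    have h2 := Int.lt_floor_add_one ((b : ℝ) ^ (n + 1) * x)
    have h3 := Int.floor_le ((b : ℝ) ^ n * x)
    have h4 := Int.lt_floor_add_one ((b : ℝ) ^ n * x)
    rw [abs_le]
    simp only [hW]
    constructor <;> linarith
  have hd : ∀ k, 1 ≤ k → dlt b Y k = digit b x (k + 1) - digit b x k := by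
    intro k hk
    obtain ⟨k, rfl⟩ : ∃ j, k = j + 1 := ⟨k - 1, by omega⟩
    simp only [dlt, hY]
    rw [hWs (k + 1), hWs k]; ring
  have hd' : ∀ k, 1 ≤ k → (dlt b Y k ≠ 0 ↔ digit b x k ≠ digit b x (k + 1)) := by
    intro k hk
    rw [hd k hk, Ne, sub_eq_zero]
    exact ⟨fun h h' => h h'.symm, fun h h' => h h'.symm⟩
  obtain ⟨X, hX⟩ := gen_seq x halg hirr b hb ((b : ℤ) - 1) (by
    have : (2 : ℤ) ≤ b := by exact_mod_cast hb
    omega) 1 Y hYa α γ hγ0 hγ2 hαγ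
  refine ⟨X, fun N ψ h1 h2 h3 => ?_⟩
  refine (hX N ψ h1 h2 (fun k k' hk0 hk1 hkk hk' hgk hgk' => ?_)).trans (le_of_eq ?_)
  · rw [hd' k hk0] at hgk
    rw [hd' k' (by omega)] at hgk'
    exact h3 k k' hk1 hkk hk' hgk hgk'
  · congr 2
    apply Finset.filter_congr
    intro k hk
    rw [hd' k (Finset.mem_Icc.1 hk).1]

end Pool.Agent.N129.FC
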