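import Pool.Agent.N129.FC.Sizes

/-!
The main theorem for integer approximations of an algebraic integer.
-/

set_option autoImplicit false

namespace Pool.Agent.N129.FC

open Finset Filter Topology
open Pool.Agent.H393R2.DC (S Pol dlt V Dn)
open Pool.Agent.H323R2.Gen (badG vv vv_step NR badG_card)

open Classical in
/-- the primes used -/
noncomputable def PPs (f : Polynomial ℤ) (b y Ds : ℕ) : Finset ℕ := (NR f b y).filter (fun q => Ds ≤ q)

lemma PPs_card_le (f : Polynomial ℤ) (b y Ds : ℕ) : (PPs f b y Ds).card ≤ y + 1 := by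
  classical
  have h1 : (PPs f b y Ds).card ≤ (range (y + 1)).card := by
    apply Finset.card_le_card
    intro q hq
    unfold PPs at hq
    rw [Finset.mem_filter] at hq
    have := hq.1
    unfold NR at this
    exact (Finset.mem_filter.1 this).1
  rwa [Finset.card_range] at h1

lemma PPs_card_ge (f : Polynomial ℤ) (b Ds : ℕ) (c1 : ℝ) (hc1 : 0 < c1) (x γ' : ℝ)
    (y : ℕ) (hy2 : 2 ≤ y) (hyx : (y : ℝ) ≤ x) (hyge : x ^ γ' / 2 ≤ y)
    (hQ : c1 * y / Real.log y ≤ ((NR f b y).card : ℝ)) (hx : 1 ≤ x) :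
    c1 / 2 * x ^ γ' / Real.log x - Ds ≤ ((PPs f b y Ds).card : ℝ) := by
  classical
  have h2 : (NR f b y).card ≤ (PPs f b y Ds).card + Ds := by
    have h3 : NR f b y ⊆ PPs f b y Ds ∪ range Ds := by
      intro q hq
      unfold PPs
      rw [Finset.mem_union, Finset.mem_filter, Finset.mem_range]
      by_cases h : Ds ≤ q
      · exact Or.inl ⟨hq, h⟩
      · exact Or.inr (by omega)
    have := (Finset.card_le_card h3).trans (Finset.card_union_le _ _)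
    rwa [Finset.card_range] at this
  have h2' : ((NR f b y).card : ℝ) ≤ (PPs f b y Ds).card + Ds := by exact_mod_cast h2
  have hy1 : (1 : ℝ) < y := by exact_mod_cast (by omega : 1 < y)
  have hlogy : Real.log y ≤ Real.log x := Real.log_le_log (by linarith) hyx
  have hlogy0 : 0 < Real.log y := Real.log_pos hy1
  have h4 : c1 / 2 * x ^ γ' / Real.log x ≤ c1 * y / Real.log y := by
    calc c1 / 2 * x ^ γ' / Real.log x = c1 * (x ^ γ' / 2) / Real.log x := by ring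
      _ ≤ c1 * y / Real.log x := by
          apply div_le_div_of_nonneg_right _ (by linarith)
          exact mul_le_mul_of_nonneg_left hyge hc1.le
      _ ≤ c1 * y / Real.log y := by
          apply div_le_div_of_nonneg_left (by positivity) hlogy0 hlogy
  linarith

lemma concl (x α γ KB Ds : ℝ) (P s m : ℕ) (hs : s = P / 4) (hx : 1 ≤ x) (hγα : γ ≤ α)
    (hKB : 0 ≤ KB) (hcard : (4 * KB + 8) * x ^ α + (Ds + 4 * KB + 4) ≤ (P : ℝ) + Ds) (hγ : 0 < γ)
    (h1 : 2 ^ s ≤ m) : Real.exp (x ^ γ) ≤ (m : ℝ) := by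
  have h1' : (2 : ℝ) ^ s ≤ m := by exact_mod_cast h1
  have hxα : 1 ≤ x ^ α := Real.one_le_rpow hx (by linarith)
  have h5 : x ^ γ ≤ x ^ α := Real.rpow_le_rpow_of_exponent_le hx hγα
  have h2 : 2 * x ^ γ ≤ s := by
    have h3 : P < 4 * (s + 1) := by omega
    have h4 : (P : ℝ) < 4 * (s + 1) := by exact_mod_cast h3
    have h6 : 0 ≤ 4 * KB * x ^ α := by positivity
    have h7 : (4 * KB + 8) * x ^ α = 4 * KB * x ^ α + 8 * x ^ α := by ring
    linarith
  have h3 : Real.exp (x ^ γ) ≤ (2 : ℝ) ^ s := by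
    have h4 : (2 : ℝ) ^ s = Real.exp (Real.log 2 * s) := by
      rw [← Real.rpow_def_of_pos (by norm_num), Real.rpow_natCast]
    rw [h4]
    apply Real.exp_le_exp.2
    have h8 := Real.log_two_gt_d9
    have h9 : (0 : ℝ) ≤ s := Nat.cast_nonneg _
    have h10 : 0.6931471803 * (s : ℝ) ≤ Real.log 2 * s := mul_le_mul_of_nonneg_right h8.le h9
    linarith
  linarith

theorem main_seq (f : Polynomial ℤ) (hf : f.Monic) (hfi : Irreducible f) (hd2 : 2 ≤ f.natDegree)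
    (b : ℕ) (hb : 2 ≤ b) (t C0 : ℝ) (ht : (f.map (Int.castRingHom ℝ)).eval t = 0)
    (U : ℕ → ℤ) (hU : ∀ K, |(U K : ℝ) - (b : ℝ) ^ K * t| ≤ C0)
    (α γ : ℝ) (hγ0 : 0 < γ) (hγα : γ ≤ α) (hαγ : α + γ < 1) :
    ∃ X : ℝ, ∀ (N : ℕ) (x : ℝ), X ≤ x → x ≤ Real.log N →
      (∀ k ∈ Dn b U N, ∀ k' ∈ Dn b U N, N * Real.exp (-x) ≤ k → k < k' →
        (k' : ℝ) - k ≤ x ^ α ∨ Real.exp x ≤ (k' : ℝ) - k) →
      Real.exp (x ^ γ) ≤ ((Dn b U N).card : ℝ) := by
  classical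
  obtain ⟨d, hd⟩ : ∃ d, f.natDegree = d := ⟨_, rfl⟩
  have hd2' : 2 ≤ d := by omega
  obtain ⟨C, hC1, hC⟩ := badG_card f hf d hd (by omega) b hb t C0 ht U hU
  obtain ⟨Ds, hDs0, hDs⟩ := Pool.Agent.TH761.A3Frob.sep_of_large f hf hfi
  obtain ⟨c1, hc1, Q0, hQ0⟩ := Pool.Agent.H323R2.NT.supply f hf hfi hd2 b (by omega)
  obtain ⟨KL, hKL⟩ := trunc_ne f hf hfi hd2 b hb t C0 ht U hU
  rw [hd] at hKL
  have hC0 : 0 ≤ C0 := (abs_nonneg _).trans (hU 0)
  have hb0 : (0 : ℝ) ≤ b := Nat.cast_nonneg _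
  have hdR : (2 : ℝ) ≤ d := by exact_mod_cast hd2'
  obtain ⟨KB, hKB⟩ := pow_unbounded_of_one_lt ((C0 + 1) * (1 + b)) (show (1 : ℝ) < 2 by norm_num)
  obtain ⟨C2, hC2⟩ : ∃ C2 : ℝ, C2 = 1 + |(U 0 : ℝ)| + (1 + b) * C0 := ⟨_, rfl⟩
  have hC21 : 1 ≤ C2 := by
    have : 0 ≤ (1 + (b : ℝ)) * C0 := by positivity
    have := abs_nonneg (U 0 : ℝ)
    linarith
  have hCC2 : 1 ≤ C * C2 := by
    calc (1 : ℝ) = 1 * 1 := by norm_num
      _ ≤ C * C2 := mul_le_mul hC1 hC21 (by norm_num) (by linarith)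
  have hFpos : 0 < d.factorial := Nat.factorial_pos d
  obtain ⟨F, hF⟩ : ∃ F, F = d.factorial := ⟨_, rfl⟩
  obtain ⟨γ', β', a1, a2, a3, a4, a5, hall⟩ := ev_all α γ hγ0 hγα hαγ
  obtain ⟨X, hX⟩ := hall (d * (Real.log (C * C2 * 2) + 1)) F (100 + 8 * d + (F + 4) + KL)
    (4 * KB + 8) (Ds + 4 * KB + 4) (Q0 + 3) (c1 / 2) (by positivity)
  refine ⟨X, fun N x hXx hxN hdist => ?_⟩
  obtain ⟨e1, e2, e3, e4, e5, e6, e7, e8⟩ := hX x hXx
  clear hX hall
  by_contra hcon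
  push Not at hcon
  have hx0 : 0 < x := by linarith
  obtain ⟨G, hG⟩ : ∃ G : ℝ, G = Real.exp (x ^ β') := ⟨_, rfl⟩
  have hN0 : 0 < (N : ℝ) := by
    by_contra h
    have h0 : (N : ℝ) = 0 := le_antisymm (not_lt.1 h) (Nat.cast_nonneg _)
    rw [h0, Real.log_zero] at hxN
    linarith
  have hexN : Real.exp x ≤ N := by
    rw [← Real.exp_log hN0]; exact Real.exp_le_exp.2 hxN
  have hG20 : G ^ 20 ≤ Real.exp x := by
    rw [hG, ← Real.exp_nat_mul]
    apply Real.exp_le_exp.2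
    push_cast
    exact e5
  have hF0R : (0 : ℝ) ≤ F := Nat.cast_nonneg _
  have hKL0 : (0 : ℝ) ≤ KL := Nat.cast_nonneg _
  have hKB0 : (0 : ℝ) ≤ KB := Nat.cast_nonneg _
  have hGK : 100 + 8 * (d : ℝ) + (F + 4) + KL ≤ G := by
    have := Real.add_one_le_exp (x ^ β')
    rw [hG]
    linarith
  have hG100 : 100 ≤ G := by linarith
  have hG8 : 8 * (d : ℝ) ≤ G := by linarith
  have hGF : (F : ℝ) + 4 ≤ G := by linarith
  have hGKL : (KL : ℝ) ≤ G := by linarith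
  have hG1 : 1 ≤ G := by linarith
  have hG0 : 0 < G := by linarith
  have hγ'0 : 0 < γ' := by linarith
  -- the parameters
  obtain ⟨D, hD⟩ : ∃ D : ℕ, D = ⌊x ^ α⌋₊ := ⟨_, rfl⟩
  obtain ⟨R, hR⟩ : ∃ R : ℕ, R = ⌈Real.exp x⌉₊ := ⟨_, rfl⟩
  obtain ⟨y, hy⟩ : ∃ y : ℕ, y = ⌊x ^ γ'⌋₊ := ⟨_, rfl⟩
  obtain ⟨e, he⟩ : ∃ e : ℕ, e = ⌊(C * C2 * (1 + Real.exp (x ^ γ))) ^ (d * y)⌋₊ := ⟨_, rfl⟩
  obtain ⟨M, hM⟩ : ∃ M : ℕ, M = F * e + 3 * D + 1 := ⟨_, rfl⟩
  obtain ⟨s, hs⟩ : ∃ s : ℕ, s = (PPs f b y Ds).card / 4 := ⟨_, rfl⟩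
  obtain ⟨r, hr⟩ : ∃ r : ℝ, r = N * Real.exp (-x) := ⟨_, rfl⟩
  have hr1 : 1 ≤ r := by
    have h1 : Real.exp x * Real.exp (-x) ≤ N * Real.exp (-x) :=
      mul_le_mul_of_nonneg_right hexN (Real.exp_pos _).le
    rw [← Real.exp_add, add_neg_cancel, Real.exp_zero] at h1
    rw [hr]; exact h1
  have hr2 : r * G ^ 20 ≤ N := by
    calc r * G ^ 20 ≤ r * Real.exp x := mul_le_mul_of_nonneg_left hG20 (by linarith)
      _ = N * (Real.exp (-x) * Real.exp x) := by rw [hr]; ring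
      _ = N := by rw [← Real.exp_add, neg_add_cancel, Real.exp_zero, mul_one]
  have hxα1 : 1 ≤ x ^ α := Real.one_le_rpow e1 (by linarith)
  have hxγ'1 : 1 ≤ x ^ γ' := Real.one_le_rpow e1 hγ'0.le
  have hDle : (D : ℝ) ≤ x ^ α := by rw [hD]; exact Nat.floor_le (by positivity)
  have hyle : (y : ℝ) ≤ x ^ γ' := by rw [hy]; exact Nat.floor_le (by positivity)
  have hyge : x ^ γ' < (y : ℝ) + 1 := by rw [hy]; exact Nat.lt_floor_add_one _
  have hyx : (y : ℝ) ≤ x := hyle.trans (by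
    calc x ^ γ' ≤ x ^ (1 : ℝ) := Real.rpow_le_rpow_of_exponent_le e1 a1.le
      _ = x := Real.rpow_one x)
  have hyQ : Q0 + 3 ≤ y := by
    rw [hy]; apply Nat.le_floor; push_cast; exact e2
  have hy1 : (1 : ℝ) ≤ y := by exact_mod_cast (by omega : 1 ≤ y)
  have hDG : (D : ℝ) + 1 ≤ G := by
    have h1 : x ^ α ≤ x ^ β' := Real.rpow_le_rpow_of_exponent_le e1 (by linarith)
    have := Real.add_one_le_exp (x ^ β')
    rw [hG]
    linarith
  have heG : (e : ℝ) ≤ G := by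
    have h0 : (0 : ℝ) ≤ (C * C2 * (1 + Real.exp (x ^ γ))) ^ (d * y) := by positivity
    rw [he, hG]
    exact (Nat.floor_le h0).trans (e_le (C * C2) x γ γ' β' d y hCC2 e1 hγ0.le hyle e3)
  have hsy : s ≤ y := by
    have h1 := PPs_card_le f b y Ds
    omega
  have hyF : ((y ^ F : ℕ) : ℝ) ≤ G := by
    push_cast
    refine pow_y_le x γ' β' G F y F e1 hyx ?_ e4 hG
    exact le_mul_of_one_le_right hF0R hxγ'1
  have hyFs : (((y ^ F) ^ s : ℕ) : ℝ) ≤ G := by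
    push_cast
    rw [← pow_mul]
    refine pow_y_le x γ' β' G F y (F * s) e1 hyx ?_ e4 hG
    push_cast
    have h1 : (s : ℝ) ≤ y := by exact_mod_cast hsy
    exact mul_le_mul_of_nonneg_left (h1.trans hyle) hF0R
  have hMG : (M : ℝ) + 1 ≤ G ^ 2 := by rw [hM]; exact M_le F e D G hG100 hGF heG hDG
  have hhG := h_le D M (y ^ F) G hG100 hDG hMG hyF
  obtain ⟨n1, n2, n3, n4, n5, n6⟩ := sizesN d N D M (y ^ F) ((y ^ F) ^ s) KL G r hG100 hG8 hd2' hr1
    hr2 hDG hMG hyF hyFs hGKL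
  have hRR : Real.exp x ≤ R := by rw [hR]; exact Nat.le_ceil _
  have hG4R : G ^ 4 < R := by
    calc G ^ 4 < G ^ 20 := pow_lt_pow_right₀ (by linarith) (by norm_num)
      _ ≤ _ := hG20.trans hRR
  -- the clusters
  have hdich : Dich (Dn b U N) ⌈r⌉₊ D R := by
    intro k hk k' hk' hYk hkk
    have hsq : N * Real.exp (-x) ≤ k := by
      rw [← hr]
      exact (Nat.le_ceil _).trans (by exact_mod_cast hYk)
    rcases hdist k hk k' hk' hsq hkk with h1 | h1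
    · left
      have h2 : ((k' - k : ℕ) : ℝ) ≤ x ^ α := by rw [Nat.cast_sub hkk.le]; exact h1
      have h3 : k' - k ≤ D := by rw [hD]; exact Nat.le_floor h2
      omega
    · right
      have h2 : Real.exp x ≤ ((k' - k : ℕ) : ℝ) := by rw [Nat.cast_sub hkk.le]; exact h1
      have h3 : R ≤ k' - k := by rw [hR]; exact Nat.ceil_le.2 h2
      omega
  -- the number of primes
  have hcard0 := PPs_card_ge f b Ds c1 hc1 x γ' y (by omega) hyx (by linarith) (hQ0 y (by omega)) e1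
  have hcard1 : (4 * (KB : ℝ) + 8) * x ^ α + (Ds + 4 * KB + 4) ≤ ((PPs f b y Ds).card : ℝ) + Ds := by
    linarith
  have hconc : (Dn b U N).card < 2 ^ s := by
    by_contra h
    push Not at h
    have := concl x α γ KB Ds (PPs f b y Ds).card s (Dn b U N).card hs e1 hγα hKB0 hcard1 hγ0 h
    linarith
  refine absurd (fin_seq f hf d hd hd2' b hb t C0 U hU N ⌈r⌉₊ D R M e y (KB * (D + 1)) s
    (N / (4 * d)) (N / 2) (PPs f b y Ds) ?_ hdich ?_ ?_ ?_ (B_le C0 hC0 b KB D hKB) (by omega) ?_ n1 n2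
    ?_ ?_ ?_ ?_) (not_le.2 hconc)
  · intro q hq
    unfold PPs at hq
    rw [Finset.mem_filter] at hq
    obtain ⟨hq1, hq2⟩ := hq
    unfold NR at hq1
    rw [Finset.mem_filter, Finset.mem_range] at hq1
    obtain ⟨hq3, hq4, hq5, -⟩ := hq1
    have : Fact q.Prime := ⟨hq4⟩
    refine ⟨hq4, hq5, hDs q hq2, by omega, ?_⟩
    rw [he]
    apply Nat.le_floor
    have hbase : C * (1 + (V b U N : ℝ)) ≤ C * C2 * (1 + Real.exp (x ^ γ)) := by
      have h1 := Pool.Agent.H393R2.DC.V_le_Dn b t C0 U hU N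
      rw [← hC2] at h1
      calc C * (1 + (V b U N : ℝ)) ≤ C * (C2 * (1 + ((Dn b U N).card : ℝ))) :=
            mul_le_mul_of_nonneg_left h1 (by linarith)
        _ ≤ C * (C2 * (1 + Real.exp (x ^ γ))) := by
            apply mul_le_mul_of_nonneg_left _ (by linarith)
            apply mul_le_mul_of_nonneg_left _ (by linarith)
            linarith
        _ = _ := by ring
    have hVnn : 0 ≤ C * (1 + (V b U N : ℝ)) := by
      have : (0 : ℝ) ≤ (V b U N : ℝ) := by exact_mod_cast Pool.Agent.H393R2.DC.V_nonneg b U N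
      have : (0 : ℝ) ≤ C := by linarith
      positivity
    have hone : 1 ≤ C * C2 * (1 + Real.exp (x ^ γ)) := by
      have h1 : 0 < Real.exp (x ^ γ) := Real.exp_pos _
      calc (1 : ℝ) = 1 * 1 := by norm_num
        _ ≤ C * C2 * (1 + Real.exp (x ^ γ)) := mul_le_mul hCC2 (by linarith) (by norm_num) (by linarith)
    calc ((badG f d b (Pol b U N) q N).card : ℝ) ≤ (C * (1 + (V b U N : ℝ))) ^ (d * q) :=
          (hC N q hq4.one_lt.le).1
      _ ≤ (C * C2 * (1 + Real.exp (x ^ γ))) ^ (d * q) := pow_le_pow_left₀ hVnn hbase _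
      _ ≤ (C * C2 * (1 + Real.exp (x ^ γ))) ^ (d * y) :=
          pow_le_pow_right₀ hone (Nat.mul_le_mul_left _ (by omega))
  · rw [hM, ← hF]
  · rw [← hF]
    have h1 : ((D + (M + 1) * y ^ F : ℕ) : ℝ) < R := lt_of_le_of_lt hhG hG4R
    exact_mod_cast h1
  · have h1 : (M : ℝ) + 2 * D < R := by
      have h2 : G ^ 4 = G ^ 2 * G ^ 2 := by ring
      have h3 : 100 * G ≤ G ^ 2 := by
        rw [sq]; exact mul_le_mul_of_nonneg_right hG100 hG0.le
      have h4 : 0 < G ^ 2 := by positivity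
      have h5 : 2 * G ^ 2 ≤ G ^ 2 * G ^ 2 := mul_le_mul_of_nonneg_right (by linarith) h4.le
      linarith
    exact_mod_cast h1
  · have h1 : (4 : ℝ) * (KB * (D + 1)) ≤ (PPs f b y Ds).card := by
      have h2 : (KB : ℝ) * D ≤ KB * x ^ α := mul_le_mul_of_nonneg_left hDle hKB0
      linarith
    exact_mod_cast h1
  · intro a c ha hc
    apply hKL
    have h1 : d * a ≤ d * (N / (4 * d) + M) := Nat.mul_le_mul_left _ ha
    omega
  · rw [← hF]; exact n4
  · rw [← hF]; exact n5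
  · rw [← hF]; exact n6

end Pool.Agent.N129.FC
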