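import Pool.Agent.N129.FC.Count
import Pool.Agent.TH761.A3Frob
import Pool.Agent.H323R2.Gen7

/-!
The finite form for integer approximations of an algebraic integer.
-/

set_option autoImplicit false

namespace Pool.Agent.N129.FC

open Finset
open Pool.Agent.H393R2.DC (S Pol dlt V Dn)
open Pool.Agent.H323R2.Gen (badG vv vv_step)

/-- the size of the jump at a cluster -/
def Jmp (b : ℕ) (U : ℕ → ℤ) (D k : ℕ) : ℤ := U (k + D) - (b : ℤ) ^ (D + 1) * U (k - 1)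

lemma mem_Dn (b : ℕ) (U : ℕ → ℤ) (N k : ℕ) : k ∈ Dn b U N ↔ k ≤ N ∧ dlt b U k ≠ 0 := by
  unfold Dn
  rw [Finset.mem_filter, Finset.mem_range, Nat.lt_succ_iff]

lemma vv_const (b : ℕ) (U : ℕ → ℤ) (N : ℕ) (q : ℕ) [Fact q.Prime] (hb : (b : ZMod q) ≠ 0) (k : ℕ)
    (hk : k + 1 ≤ N) (h : k + 1 ∉ Dn b U N) :
    vv b (Pol b U N) q 1 (k + 1) = vv b (Pol b U N) q 1 k := by
  apply vv_step b _ q hb
  rw [Pool.Agent.H393R2.DC.Pol_coeff, if_pos hk]
  by_contra h0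
  exact h ((mem_Dn b U N _).2 ⟨hk, h0⟩)

lemma vv_jmp (b : ℕ) (U : ℕ → ℤ) (N D : ℕ) (q : ℕ) [Fact q.Prime] (hb : (b : ZMod q) ≠ 0) (k : ℕ)
    (hk1 : 1 ≤ k) (hk : k + D ≤ N) :
    vv b (Pol b U N) q 1 (k - 1) ≠ vv b (Pol b U N) q 1 (k + D) ↔ ¬ (q : ℤ) ∣ Jmp b U D k := by
  unfold vv Jmp
  rw [pow_one, Pool.Agent.H393R2.DC.S_Pol b U N (k - 1) (by omega),
    Pool.Agent.H393R2.DC.S_Pol b U N (k + D) hk, not_iff_not, ← ZMod.intCast_zmod_eq_zero_iff_dvd]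
  push_cast
  have e : k + D = (k - 1) + (D + 1) := by omega
  rw [sub_eq_zero]
  have h1 : ((b : ZMod q)⁻¹) ^ (k + D) = ((b : ZMod q)⁻¹) ^ (k - 1) * ((b : ZMod q)⁻¹) ^ (D + 1) := by
    rw [← pow_add, ← e]
  rw [h1]
  have hbi : ((b : ZMod q)⁻¹) ^ (k - 1) ≠ 0 := pow_ne_zero _ (inv_ne_zero hb)
  have hbD : (b : ZMod q) ^ (D + 1) * ((b : ZMod q)⁻¹) ^ (D + 1) = 1 := by
    rw [← mul_pow, mul_inv_cancel₀ hb, one_pow]
  have hbD0 : (b : ZMod q) ^ (D + 1) ≠ 0 := pow_ne_zero _ hb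
  constructor
  · intro h
    have h2 : ((b : ZMod q)⁻¹) ^ (k - 1) * (((U (k - 1) : ℤ) : ZMod q) -
        ((U (k + D) : ℤ) : ZMod q) * ((b : ZMod q)⁻¹) ^ (D + 1)) = 0 := by
      linear_combination h
    rcases mul_eq_zero.1 h2 with h3 | h3
    · exact absurd h3 hbi
    · have h4 : ((U (k - 1) : ℤ) : ZMod q) =
          ((U (k + D) : ℤ) : ZMod q) * ((b : ZMod q)⁻¹) ^ (D + 1) := sub_eq_zero.1 h3
      rw [h4]
      linear_combination -((U (k + D) : ℤ) : ZMod q) * hbD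
  · intro h
    rw [h]
    linear_combination (-((U (k - 1) : ℤ) : ZMod q) * ((b : ZMod q)⁻¹) ^ (k - 1)) * hbD

lemma Jmp_bound (b : ℕ) (t C0 : ℝ) (U : ℕ → ℤ)
    (hU : ∀ K, |(U K : ℝ) - (b : ℝ) ^ K * t| ≤ C0) (D k : ℕ) (hk : 1 ≤ k) :
    |(Jmp b U D k : ℝ)| ≤ C0 * (1 + (b : ℝ) ^ (D + 1)) := by
  have h1 := hU (k + D)
  have h2 := hU (k - 1)
  have e : (b : ℝ) ^ (k + D) = (b : ℝ) ^ (D + 1) * (b : ℝ) ^ (k - 1) := by
    rw [← pow_add]; congr 1; omega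
  have e2 : (Jmp b U D k : ℝ) = ((U (k + D) : ℝ) - (b : ℝ) ^ (k + D) * t) -
      (b : ℝ) ^ (D + 1) * ((U (k - 1) : ℝ) - (b : ℝ) ^ (k - 1) * t) := by
    unfold Jmp
    push_cast
    rw [e]; ring
  rw [e2]
  refine (abs_sub _ _).trans ?_
  have hb0 : (0 : ℝ) ≤ (b : ℝ) ^ (D + 1) := by positivity
  rw [abs_mul, abs_of_nonneg hb0]
  nlinarith [mul_le_mul_of_nonneg_left h2 hb0]

lemma few_primes (PP : Finset ℕ) (hP : ∀ q ∈ PP, q.Prime) (J : ℤ) (hJ : J ≠ 0) (B : ℕ)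
    (hB : |J| < 2 ^ B) : (PP.filter (fun q : ℕ => (q : ℤ) ∣ J)).card ≤ B := by
  classical
  set G := PP.filter (fun q : ℕ => (q : ℤ) ∣ J) with hG
  have h1 : (∏ p ∈ G, p) ∣ J.natAbs := by
    apply Finset.prod_primes_dvd
    · intro p hp
      exact (hP p (Finset.mem_filter.1 hp).1).prime
    · intro p hp
      exact Int.natCast_dvd.1 (Finset.mem_filter.1 hp).2
  have h2 : ∏ p ∈ G, p ≤ J.natAbs := Nat.le_of_dvd (Int.natAbs_pos.2 hJ) h1
  have h3 : 2 ^ G.card ≤ ∏ p ∈ G, p := by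
    rw [← Finset.prod_const]
    apply Finset.prod_le_prod'
    intro p hp
    exact (hP p (Finset.mem_filter.1 hp).1).two_le
  have h4 : (J.natAbs : ℤ) < 2 ^ B := by rw [Int.natCast_natAbs]; exact hB
  have h5 : J.natAbs < 2 ^ B := by exact_mod_cast h4
  have h6 : 2 ^ G.card < 2 ^ B := lt_of_le_of_lt (h3.trans h2) h5
  exact ((Nat.pow_lt_pow_iff_right (by norm_num)).1 h6).le

open Polynomial in
theorem fin_seq (f : ℤ[X]) (hf : f.Monic) (d : ℕ) (hd : f.natDegree = d) (hd2 : 2 ≤ d)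
    (b : ℕ) (hb : 2 ≤ b) (t C0 : ℝ) (U : ℕ → ℤ)
    (hU : ∀ K, |(U K : ℝ) - (b : ℝ) ^ K * t| ≤ C0)
    (N Y D R M e y B s a0 c0 : ℕ) (PP : Finset ℕ)
    (hPP : ∀ q ∈ PP, q.Prime ∧ (b : ZMod q) ≠ 0 ∧ (f.map (Int.castRingHom (ZMod q))).Separable ∧
      q ≤ y ∧ (badG f d b (Pol b U N) q N).card ≤ e)
    (hdich : Dich (Dn b U N) Y D R)
    (hM : d.factorial * e + 3 * D + 1 ≤ M)
    (hR : D + (M + 1) * y ^ d.factorial < R) (hR2 : M + 2 * D < R)
    (hB : C0 * (1 + (b : ℝ) ^ (D + 1)) < 2 ^ B)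
    (hs : 4 * s ≤ PP.card) (hBP : 4 * B ≤ PP.card)
    (ha0 : Y + D ≤ a0) (hac : a0 + M ≤ c0)
    (hne : ∀ a c, a ≤ a0 + M → c0 ≤ c → (U a : ℝ) / (b : ℝ) ^ a ≠ (U c : ℝ) / (b : ℝ) ^ c)
    (hN : c0 + M + 2 * (D + (M + 1) * y ^ d.factorial) ≤ N)
    (hlo : ((Y + D + M + 1) * y ^ d.factorial + (D + (M + 1) * y ^ d.factorial)) *
      (y ^ d.factorial) ^ s ≤ a0)
    (hk0 : 3 * (D + (M + 1) * y ^ d.factorial) * (y ^ d.factorial) ^ s * (y ^ d.factorial) ^ s < a0) :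
    2 ^ s ≤ (Dn b U N).card := by
  classical
  set A := Dn b U N with hA
  set F := d.factorial with hF
  set h := D + (M + 1) * y ^ F with hh
  have hF0 : F ≠ 0 := Nat.factorial_ne_zero d
  have hbR : (0 : ℝ) < b := by positivity
  -- starting positions
  obtain ⟨a, ha1, ha2, hag, -⟩ := choose_v A Y D R hdich a0 M ∅ 0 0 1 le_rfl (by simp) (by omega)
    hR2 ha0
  obtain ⟨c, hc1, hc2, hcg, -⟩ := choose_v A Y D R hdich c0 M ∅ 0 0 1 le_rfl (by simp) (by omega)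
    hR2 (by omega)
  have hconstR : ∀ k, k + 1 ≤ N → k + 1 ∉ A →
      (U (k + 1) : ℝ) / (b : ℝ) ^ (k + 1) = (U k : ℝ) / (b : ℝ) ^ k := by
    intro k hk hkA
    have h0 : dlt b U (k + 1) = 0 := by
      by_contra h0
      exact hkA ((mem_Dn b U N _).2 ⟨hk, h0⟩)
    simp only [dlt] at h0
    have h1 : U (k + 1) = b * U k := by linarith
    rw [h1, pow_succ]
    push_cast
    field_simp
  obtain ⟨k0, hk0a, hk0b, hk0c, hk0d⟩ := jump A N Y D R (fun k => (U k : ℝ) / (b : ℝ) ^ k) hconstR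
    hdich (by omega) (c - a) a c le_rfl (by omega) (by omega) (by omega) hag hcg
    (hne a c ha2 hc1)
  have hJ0 : Jmp b U D k0 ≠ 0 := by
    intro h0
    apply hk0d
    unfold Jmp at h0
    have h1 : U (k0 + D) = (b : ℤ) ^ (D + 1) * U (k0 - 1) := by linarith
    rw [h1]
    have e : (b : ℝ) ^ (k0 + D) = (b : ℝ) ^ (D + 1) * (b : ℝ) ^ (k0 - 1) := by
      rw [← pow_add]; congr 1; omega
    rw [e]
    push_cast
    have h2 : (b : ℝ) ^ (D + 1) ≠ 0 := by positivity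
    have h3 : (b : ℝ) ^ (k0 - 1) ≠ 0 := by positivity
    field_simp
  have hPne : PP.card = 0 ∨ 1 ≤ y := by
    rcases PP.eq_empty_or_nonempty with h | ⟨q, hq⟩
    · left; rw [h]; rfl
    · right
      have := hPP q hq
      exact this.1.one_lt.le.trans this.2.2.2.1
  rcases hPne with h0 | hy1
  · have : s = 0 := by omega
    rw [this, pow_zero]
    exact Finset.card_pos.2 ⟨k0, hk0a.1⟩
  refine count A D F h k0 (Jmp b U D) PP B s ((y ^ F) ^ s) ((Y + D + M + 1) * y ^ F) (N - h) hF0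
    (fun q hq => (hPP q hq).1) hk0a hJ0 ?_ ?_ hs hBP ?_ ?_ ?_ ?_
  · intro k hk hklo hJ
    have hk1 : 1 ≤ k := by
      have : 1 * 1 ≤ (Y + D + M + 1) * y ^ F := Nat.mul_le_mul (by omega) (Nat.pow_pos hy1)
      omega
    apply few_primes PP (fun q hq => (hPP q hq).1) _ hJ
    have h1 := lt_of_le_of_lt (Jmp_bound b t C0 U hU D k hk1) hB
    exact_mod_cast h1
  · intro q hq k hk hqJ hk1 hk2
    obtain ⟨hqp, hqb, hqs, hqy, hqe⟩ := hPP q hq
    have : Fact q.Prime := ⟨hqp⟩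
    have hqF : q ^ F ≤ y ^ F := Nat.pow_le_pow_left hqy _
    have hqF1 : 1 ≤ q ^ F := Nat.pow_pos hqp.pos
    have hMq : (M + 1) * q ^ F ≤ (M + 1) * y ^ F := Nat.mul_le_mul_left _ hqF
    have hkpos : 1 ≤ k := by
      have : 1 * 1 ≤ (Y + D + M + 1) * y ^ F := Nat.mul_le_mul (by omega) (Nat.pow_pos hy1)
      omega
    have hkN : k + D ≤ N := by omega
    obtain ⟨k', ⟨c5, c6⟩, c1, c2, c3, c4⟩ := step A N Y D R M (vv b (Pol b U N) q 1)
      (fun k hk hkA => vv_const b U N q hqb k hk hkA) hdich (badG f d b (Pol b U N) q N) F e q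
      hqp.one_lt.le hqe hM (by omega) hR2 (by
        intro v hv hvb
        have h1 := Pool.Agent.TH761.A3Frob.s_dil f hf d hd hd2 b (Pol b U N) q hqb hqs N (v * q ^ F)
          hv (by
            intro i hi
            have e1 : v * q ^ F / q ^ i = v * q ^ (F - i) := by
              have e2 : v * q ^ F = v * q ^ (F - i) * q ^ i := by
                rw [mul_assoc, ← pow_add]; congr 2; omega
              rw [e2, Nat.mul_div_cancel _ (Nat.pow_pos hqp.pos)]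
            rw [e1]
            exact hvb i hi)
        rw [← hF, Nat.mul_div_cancel _ hqF1] at h1
        exact h1.symm) k hk ((vv_jmp b U N D q hqb k hkpos hkN).2 hqJ)
      (by
        have : (Y + D + M + 1) * q ^ F ≤ (Y + D + M + 1) * y ^ F := Nat.mul_le_mul_left _ hqF
        omega) (by omega)
    exact ⟨k', c1, (vv_jmp b U N D q hqb k' c5 c6).1 c2, by omega, by omega⟩
  · intro SS hSS hSc
    unfold TT
    have h1 : ∏ q ∈ SS, q ^ F ≤ (y ^ F) ^ SS.card := by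
      apply Finset.prod_le_pow_card
      intro q hq
      exact Nat.pow_le_pow_left (hPP q (hSS hq)).2.2.2.1 _
    exact h1.trans (Nat.pow_le_pow_right (Nat.pow_pos hy1) hSc)
  · omega
  · omega
  · omega

end Pool.Agent.N129.FC
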