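import Pool.Agent.N129.FC.Asym

/-!
Numerical inequalities.
-/

set_option autoImplicit false

namespace Pool.Agent.N129.FC

open Finset Filter Topology

/-- the inequalities between the sizes -/
lemma sizesR (d G r N : ℝ) (hG : 100 ≤ G) (hGd : 8 * d ≤ G) (hd : 2 ≤ d) (hr : 1 ≤ r)
    (hN : r * G ^ 20 ≤ N) :
    2 * r * G ^ 9 ≤ N / (4 * d) ∧ 5 * r * G ^ 5 ≤ r * G ^ 9 ∧ 3 * G ^ 6 < r * G ^ 9 ∧
    100 * G ^ 4 ≤ N ∧ 100 * r ≤ N ∧ 100 * (d * G ^ 2) ≤ N ∧ G ≤ G ^ 2 ∧ G ^ 2 ≤ G ^ 4 ∧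
    r + G + 2 ≤ r * G ^ 9 := by
  have hG1 : 1 ≤ G := by linarith
  have hG0 : 0 < G := by linarith
  have hr0 : 0 < r := by linarith
  have hd0 : 0 < d := by linarith
  have hGN : G ^ 20 ≤ N := by
    have : 1 * G ^ 20 ≤ r * G ^ 20 := mul_le_mul_of_nonneg_right hr (by positivity)
    linarith
  refine ⟨?_, ?_, ?_, ?_, ?_, ?_, ?_, ?_, ?_⟩
  · rw [le_div_iff₀ (by positivity)]
    calc 2 * r * G ^ 9 * (4 * d) = r * G ^ 9 * (8 * d) := by ring
      _ ≤ r * G ^ 9 * G := mul_le_mul_of_nonneg_left hGd (by positivity)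
      _ = r * G ^ 10 := by ring
      _ ≤ r * G ^ 20 := mul_le_mul_of_nonneg_left (pow_le_pow_right₀ hG1 (by norm_num)) hr0.le
      _ ≤ N := hN
  · have h1 : 5 * G ^ 5 ≤ G ^ 9 := by
      calc 5 * G ^ 5 ≤ G * G ^ 5 := mul_le_mul_of_nonneg_right (by linarith) (by positivity)
        _ = G ^ 6 := by ring
        _ ≤ G ^ 9 := pow_le_pow_right₀ hG1 (by norm_num)
    calc 5 * r * G ^ 5 = r * (5 * G ^ 5) := by ring
      _ ≤ r * G ^ 9 := mul_le_mul_of_nonneg_left h1 hr0.le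
  · calc 3 * G ^ 6 < G * G ^ 6 := by
          apply mul_lt_mul_of_pos_right _ (by positivity)
          linarith
      _ = 1 * G ^ 7 := by ring
      _ ≤ r * G ^ 9 := by
          apply mul_le_mul hr (pow_le_pow_right₀ hG1 (by norm_num)) (by positivity) hr0.le
  · calc 100 * G ^ 4 ≤ G * G ^ 4 := mul_le_mul_of_nonneg_right hG (by positivity)
      _ = G ^ 5 := by ring
      _ ≤ G ^ 20 := pow_le_pow_right₀ hG1 (by norm_num)
      _ ≤ N := hGN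
  · calc 100 * r ≤ G * r := mul_le_mul_of_nonneg_right hG hr0.le
      _ = r * G ^ 1 := by ring
      _ ≤ r * G ^ 20 := mul_le_mul_of_nonneg_left (pow_le_pow_right₀ hG1 (by norm_num)) hr0.le
      _ ≤ N := hN
  · calc 100 * (d * G ^ 2) ≤ G * (G * G ^ 2) := by
          apply mul_le_mul hG _ (by positivity) hG0.le
          exact mul_le_mul_of_nonneg_right (by linarith) (by positivity)
      _ = G ^ 4 := by ring
      _ ≤ G ^ 20 := pow_le_pow_right₀ hG1 (by norm_num)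
      _ ≤ N := hGN
  · exact le_self_pow₀ hG1 (by norm_num)
  · exact pow_le_pow_right₀ hG1 (by norm_num)
  · have h1 : G ≤ G ^ 9 := le_self_pow₀ hG1 (by norm_num)
    have h2 : r * G ≤ r * G ^ 9 := mul_le_mul_of_nonneg_left h1 hr0.le
    have h3 : (r - 1) * (G - 1) ≥ 0 := mul_nonneg (by linarith) (by linarith)
    have h5 : 1 * G ^ 9 ≤ r * G ^ 9 := mul_le_mul_of_nonneg_right hr (by positivity)
    have h6 : 100 * G ≤ G ^ 9 := by
      calc 100 * G ≤ G * G := mul_le_mul_of_nonneg_right hG hG0.le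
        _ = G ^ 2 := by ring
        _ ≤ G ^ 9 := pow_le_pow_right₀ hG1 (by norm_num)
    have h7 : 100 * r ≤ r * G ^ 9 := by
      have : r * 100 ≤ r * G ^ 9 := mul_le_mul_of_nonneg_left (by linarith) hr0.le
      linarith
    linarith

lemma h_le (D M yF : ℕ) (G : ℝ) (hG : 100 ≤ G) (hD : (D : ℝ) + 1 ≤ G) (hM : (M : ℝ) + 1 ≤ G ^ 2)
    (hyF : (yF : ℝ) ≤ G) : ((D + (M + 1) * yF : ℕ) : ℝ) ≤ G ^ 4 := by
  push_cast
  have h2 : ((M : ℝ) + 1) * (yF : ℝ) ≤ G ^ 2 * G := by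
    apply mul_le_mul hM hyF (by positivity) (by positivity)
  have h3 : 100 * (G ^ 2 * G) ≤ G ^ 4 := by
    have : G ^ 4 = G * (G ^ 2 * G) := by ring
    rw [this]
    exact mul_le_mul_of_nonneg_right hG (by positivity)
  have h4 : 1 * G ≤ G ^ 2 * G := mul_le_mul_of_nonneg_right (one_le_pow₀ (by linarith)) (by linarith)
  linarith

/-- the inequalities needed for the finite theorem -/
lemma sizesN (d N D M yF yFs KL : ℕ) (G r : ℝ) (hG : 100 ≤ G) (hGd : 8 * (d : ℝ) ≤ G) (hd : 2 ≤ d)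
    (hr : 1 ≤ r) (hr2 : r * G ^ 20 ≤ N) (hD : (D : ℝ) + 1 ≤ G) (hM : (M : ℝ) + 1 ≤ G ^ 2)
    (hyF : (yF : ℝ) ≤ G) (hyFs : (yFs : ℝ) ≤ G) (hKL : (KL : ℝ) ≤ G) :
    ⌈r⌉₊ + D ≤ N / (4 * d) ∧ N / (4 * d) + M ≤ N / 2 ∧ d * (N / (4 * d) + M) + KL ≤ N / 2 ∧
    N / 2 + M + 2 * (D + (M + 1) * yF) ≤ N ∧
    ((⌈r⌉₊ + D + M + 1) * yF + (D + (M + 1) * yF)) * yFs ≤ N / (4 * d) ∧
    3 * (D + (M + 1) * yF) * yFs * yFs < N / (4 * d) := by
  have hdR : (2 : ℝ) ≤ d := by exact_mod_cast hd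
  obtain ⟨z1, z2, z3, z4, z5, z6, z7, z8, z9⟩ := sizesR d G r N hG hGd hdR hr hr2
  have hh := h_le D M yF G hG hD hM hyF
  have hG0 : 0 < G := by linarith
  have hG1 : 1 ≤ G := by linarith
  have hr0 : 0 < r := by linarith
  have hceil : ((⌈r⌉₊ : ℕ) : ℝ) ≤ r + 1 := (Nat.ceil_lt_add_one hr0.le).le
  have hd4 : 0 < 4 * d := by omega
  have hG41 : 1 ≤ G ^ 4 := one_le_pow₀ hG1
  -- `N / (4 d)`
  have ha1 : r * G ^ 9 ≤ ((N / (4 * d) : ℕ) : ℝ) := by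
    have h1 : N < 4 * d * (N / (4 * d) + 1) := Nat.lt_mul_div_succ _ hd4
    have h2 : (N : ℝ) < 4 * d * (((N / (4 * d) : ℕ) : ℝ) + 1) := by exact_mod_cast h1
    have h3 : (N : ℝ) / (4 * d) < ((N / (4 * d) : ℕ) : ℝ) + 1 := by
      rw [div_lt_iff₀ (by positivity)]
      linarith
    have h4 : 1 ≤ r * G ^ 9 := by
      have : 1 * 1 ≤ r * G ^ 9 := mul_le_mul hr (one_le_pow₀ hG1) (by norm_num) hr0.le
      linarith
    linarith
  have ha3 : (d : ℝ) * ((N / (4 * d) : ℕ) : ℝ) ≤ N / 4 := by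
    have h1 : N / (4 * d) * (4 * d) ≤ N := Nat.div_mul_le_self _ _
    have h2 : ((N / (4 * d) : ℕ) : ℝ) * (4 * d) ≤ N := by exact_mod_cast h1
    linarith
  have hc1 : (N : ℝ) / 2 - 1 ≤ ((N / 2 : ℕ) : ℝ) := by
    have h1 : N < 2 * (N / 2 + 1) := by omega
    have h2 : (N : ℝ) < 2 * (((N / 2 : ℕ) : ℝ) + 1) := by exact_mod_cast h1
    linarith
  have hc2 : ((N / 2 : ℕ) : ℝ) ≤ N / 2 := by
    have h1 : 2 * (N / 2) ≤ N := by omega
    have h2 : 2 * ((N / 2 : ℕ) : ℝ) ≤ (N : ℝ) := by exact_mod_cast h1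
    linarith
  have hG2 : 0 < G ^ 2 := by positivity
  have hdM : (d : ℝ) * M ≤ d * G ^ 2 := mul_le_mul_of_nonneg_left (by linarith) (by positivity)
  have key3 : d * (N / (4 * d) + M) + KL ≤ N / 2 := by
    have h1 : (d : ℝ) * (((N / (4 * d) : ℕ) : ℝ) + M) + KL ≤ ((N / 2 : ℕ) : ℝ) := by
      rw [mul_add]; linarith
    exact_mod_cast h1
  refine ⟨?_, ?_, key3, ?_, ?_, ?_⟩
  · have h1 : ((⌈r⌉₊ : ℕ) : ℝ) + D ≤ ((N / (4 * d) : ℕ) : ℝ) := by linarith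
    exact_mod_cast h1
  · have : 1 * (N / (4 * d) + M) ≤ d * (N / (4 * d) + M) := Nat.mul_le_mul_right _ (by omega)
    omega
  · have h1 : ((N / 2 : ℕ) : ℝ) + M + 2 * ((D + (M + 1) * yF : ℕ) : ℝ) ≤ N := by
      linarith
    exact_mod_cast h1
  · have h1 : (((⌈r⌉₊ + D + M + 1) * yF + (D + (M + 1) * yF) : ℕ) : ℝ) ≤ 5 * r * G ^ 4 := by
      have e : (((⌈r⌉₊ + D + M + 1) * yF + (D + (M + 1) * yF) : ℕ) : ℝ) =
          (((⌈r⌉₊ : ℕ) : ℝ) + D + M + 1) * yF + ((D + (M + 1) * yF : ℕ) : ℝ) := by push_cast; ring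
      rw [e]
      have h0 : G ^ 2 ≤ r * G ^ 2 := le_mul_of_one_le_left (by positivity) hr
      have h0' : r ≤ r * G ^ 2 := le_mul_of_one_le_right hr0.le (by linarith)
      have h2 : (((⌈r⌉₊ : ℕ) : ℝ) + D + M + 1) * yF ≤ (4 * (r * G ^ 2)) * G := by
        apply mul_le_mul _ hyF (by positivity) (by positivity)
        linarith
      have h3 : G ^ 2 * G ≤ G ^ 4 := by
        have : G ^ 2 * G = G ^ 3 := by ring
        rw [this]
        exact pow_le_pow_right₀ hG1 (by norm_num)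
      have h4 : (4 * (r * G ^ 2)) * G ≤ (4 * r) * G ^ 4 := by
        calc (4 * (r * G ^ 2)) * G = (4 * r) * (G ^ 2 * G) := by ring
          _ ≤ _ := mul_le_mul_of_nonneg_left h3 (by positivity)
      have h5 : G ^ 4 ≤ r * G ^ 4 := le_mul_of_one_le_left (by positivity) hr
      linarith
    have h2 : (((((⌈r⌉₊ + D + M + 1) * yF + (D + (M + 1) * yF)) * yFs : ℕ)) : ℝ) ≤
        ((N / (4 * d) : ℕ) : ℝ) := by
      rw [Nat.cast_mul]
      calc (((⌈r⌉₊ + D + M + 1) * yF + (D + (M + 1) * yF) : ℕ) : ℝ) * (yFs : ℝ) ≤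
            (5 * r * G ^ 4) * G := mul_le_mul h1 hyFs (by positivity) (by positivity)
        _ = 5 * r * G ^ 5 := by ring
        _ ≤ r * G ^ 9 := z2
        _ ≤ _ := ha1
    exact_mod_cast h2
  · have h1 : 3 * ((D + (M + 1) * yF : ℕ) : ℝ) * yFs * yFs < ((N / (4 * d) : ℕ) : ℝ) := by
      calc 3 * ((D + (M + 1) * yF : ℕ) : ℝ) * yFs * yFs ≤ 3 * G ^ 4 * G * G := by gcongr
        _ = 3 * G ^ 6 := by ring
        _ < r * G ^ 9 := z3
        _ ≤ _ := ha1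
    exact_mod_cast h1

/-- bound of the exceptional sets -/
lemma e_le (CC x γ γ' β' : ℝ) (d y : ℕ) (hCC : 1 ≤ CC) (hx : 1 ≤ x) (hγ : 0 ≤ γ)
    (hy : (y : ℝ) ≤ x ^ γ')
    (h3 : (d * (Real.log (CC * 2) + 1)) * x ^ (γ + γ') ≤ x ^ β') :
    (CC * (1 + Real.exp (x ^ γ))) ^ (d * y) ≤ Real.exp (x ^ β') := by
  have hx0 : 0 < x := by linarith
  set L0 := Real.log (CC * 2) with hL0
  have hL00 : 0 ≤ L0 := Real.log_nonneg (by linarith)
  have hxγ1 : 1 ≤ x ^ γ := Real.one_le_rpow hx hγ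
  have h1 : CC * (1 + Real.exp (x ^ γ)) ≤ Real.exp ((L0 + 1) * x ^ γ) := by
    have h2 : (1 : ℝ) ≤ Real.exp (x ^ γ) := Real.one_le_exp (by positivity)
    calc CC * (1 + Real.exp (x ^ γ)) ≤ CC * (2 * Real.exp (x ^ γ)) := by
          apply mul_le_mul_of_nonneg_left (by linarith) (by positivity)
      _ = Real.exp L0 * Real.exp (x ^ γ) := by
          rw [hL0, Real.exp_log (by positivity)]; ring
      _ = Real.exp (L0 + x ^ γ) := (Real.exp_add _ _).symm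
      _ ≤ _ := by
          apply Real.exp_le_exp.2
          have : L0 * 1 ≤ L0 * x ^ γ := mul_le_mul_of_nonneg_left hxγ1 hL00
          linarith
  calc (CC * (1 + Real.exp (x ^ γ))) ^ (d * y) ≤ (Real.exp ((L0 + 1) * x ^ γ)) ^ (d * y) :=
        pow_le_pow_left₀ (by positivity) h1 _
    _ = Real.exp (((d * y : ℕ) : ℝ) * ((L0 + 1) * x ^ γ)) := by rw [← Real.exp_nat_mul]
    _ ≤ _ := by
        apply Real.exp_le_exp.2
        refine le_trans ?_ h3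
        rw [Real.rpow_add hx0]
        push_cast
        calc (d : ℝ) * y * ((L0 + 1) * x ^ γ) ≤ (d : ℝ) * x ^ γ' * ((L0 + 1) * x ^ γ) := by
              gcongr
          _ = _ := by ring

lemma M_le (F e D : ℕ) (G : ℝ) (hG : 100 ≤ G) (hF : (F : ℝ) + 4 ≤ G) (he : (e : ℝ) ≤ G)
    (hD : (D : ℝ) + 1 ≤ G) : ((F * e + 3 * D + 1 : ℕ) : ℝ) + 1 ≤ G ^ 2 := by
  push_cast
  have hF0 : (0 : ℝ) ≤ F := Nat.cast_nonneg _
  have h2 : (F : ℝ) * e ≤ F * G := mul_le_mul_of_nonneg_left he hF0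
  have h3 : ((F : ℝ) + 4) * G ≤ G * G := mul_le_mul_of_nonneg_right hF (by linarith)
  have h4 : G ^ 2 = G * G := sq G
  linarith

lemma pow_y_le (x γ' β' G : ℝ) (F y j : ℕ) (hx : 1 ≤ x) (hyx : (y : ℝ) ≤ x)
    (hj : (j : ℝ) ≤ F * x ^ γ') (h4 : (F : ℝ) * Real.log x * x ^ γ' ≤ x ^ β')
    (hG : G = Real.exp (x ^ β')) : (y : ℝ) ^ j ≤ G := by
  have hx0 : 0 < x := by linarith
  rw [hG]
  calc (y : ℝ) ^ j ≤ x ^ j := pow_le_pow_left₀ (Nat.cast_nonneg _) hyx _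
    _ = Real.exp (Real.log x * j) := by
        rw [← Real.rpow_def_of_pos hx0, Real.rpow_natCast]
    _ ≤ _ := by
        apply Real.exp_le_exp.2
        refine le_trans ?_ h4
        calc Real.log x * j ≤ Real.log x * (F * x ^ γ') :=
              mul_le_mul_of_nonneg_left hj (Real.log_nonneg hx)
          _ = _ := by ring

lemma B_le (C0 : ℝ) (hC0 : 0 ≤ C0) (b KB D : ℕ) (hKB : (C0 + 1) * (1 + (b : ℝ)) < 2 ^ KB) :
    C0 * (1 + (b : ℝ) ^ (D + 1)) < 2 ^ (KB * (D + 1)) := by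
  have hb0 : (0 : ℝ) ≤ b := Nat.cast_nonneg _
  calc C0 * (1 + (b : ℝ) ^ (D + 1)) ≤ (C0 + 1) ^ (D + 1) * (1 + b) ^ (D + 1) := by
        have h1 : C0 ≤ (C0 + 1) ^ (D + 1) := by
          calc C0 ≤ C0 + 1 := by linarith
            _ = (C0 + 1) ^ 1 := (pow_one _).symm
            _ ≤ _ := pow_le_pow_right₀ (by linarith) (by omega)
        have h2 : 1 + (b : ℝ) ^ (D + 1) ≤ (1 + b) ^ (D + 1) := by
          have := pow_add_pow_le (show (0 : ℝ) ≤ 1 by norm_num) hb0 (n := D + 1) (by omega)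
          rwa [one_pow] at this
        exact mul_le_mul h1 h2 (by positivity) (by positivity)
    _ = ((C0 + 1) * (1 + b)) ^ (D + 1) := (mul_pow _ _ _).symm
    _ < (2 ^ KB) ^ (D + 1) := pow_lt_pow_left₀ hKB (by positivity) (by omega)
    _ = _ := by rw [← pow_mul]

end Pool.Agent.N129.FC
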