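import Pool.Agent.N129.FC.Gen

/-!
Transcendence criterion.
-/

set_option autoImplicit false

namespace Pool.Agent.N129.FC

open Finset Filter Topology

/-- integer approximations attached to an expansion -/
lemma exists_W (x : ℝ) (b : ℕ) (hb : 2 ≤ b) (g : ℕ → ℤ) (M : ℤ) (hg : ∀ k, |g k| ≤ M)
    (hsum : HasSum (fun k : ℕ => (g k : ℝ) / (b : ℝ) ^ k) x) :
    ∃ W : ℕ → ℤ, (∀ n, W (n + 1) = b * W n + g (n + 1)) ∧
      ∀ n, |(W n : ℝ) - (b : ℝ) ^ n * x| ≤ M := by
  have hb2 : (2 : ℝ) ≤ b := by exact_mod_cast hb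
  have hb0 : (0 : ℝ) < b := by linarith
  refine ⟨fun n => ∑ k ∈ range (n + 1), g k * (b : ℤ) ^ (n - k), ?_, ?_⟩
  · intro n
    simp only
    rw [Finset.sum_range_succ, Finset.mul_sum]
    congr 1
    · apply Finset.sum_congr rfl
      intro k hk
      have : k ≤ n := Nat.lt_succ_iff.1 (Finset.mem_range.1 hk)
      rw [show n + 1 - k = (n - k) + 1 by omega, pow_succ]; ring
    · simp
  · intro n
    have h1 := (hasSum_nat_add_iff' (n + 1)).2 hsum
    have h2 := h1.mul_left ((b : ℝ) ^ n)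
    have h3 : (b : ℝ) ^ n * (x - ∑ i ∈ range (n + 1), (g i : ℝ) / (b : ℝ) ^ i) =
        (b : ℝ) ^ n * x - ((∑ k ∈ range (n + 1), g k * (b : ℤ) ^ (n - k) : ℤ) : ℝ) := by
      rw [mul_sub]
      congr 1
      push_cast
      rw [Finset.mul_sum]
      apply Finset.sum_congr rfl
      intro k hk
      have hk' : k ≤ n := Nat.lt_succ_iff.1 (Finset.mem_range.1 hk)
      have e : (b : ℝ) ^ n = (b : ℝ) ^ (n - k) * (b : ℝ) ^ k := by rw [← pow_add]; congr 1; omega
      rw [e]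
      have : (b : ℝ) ^ k ≠ 0 := by positivity
      field_simp
    rw [h3] at h2
    have h4 := HasSum.norm_le_of_bounded h2 (hasSum_geometric_two' (M : ℝ)) (by
      intro k
      have hgk : |(g (k + (n + 1)) : ℝ)| ≤ M := by exact_mod_cast hg (k + (n + 1))
      have hM0 : (0 : ℝ) ≤ M := (abs_nonneg _).trans hgk
      have e : (b : ℝ) ^ n * ((g (k + (n + 1)) : ℝ) / (b : ℝ) ^ (k + (n + 1))) =
          (g (k + (n + 1)) : ℝ) / (b : ℝ) ^ (k + 1) := by
        rw [show k + (n + 1) = n + (k + 1) by ring, pow_add]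
        field_simp
      rw [e, Real.norm_eq_abs, abs_div, abs_of_pos (show (0 : ℝ) < (b : ℝ) ^ (k + 1) by positivity),
        div_div]
      apply div_le_div₀ hM0 hgk (by positivity)
      rw [← pow_succ']
      exact pow_le_pow_left₀ (by norm_num) hb2 _)
    rw [Real.norm_eq_abs, abs_sub_comm] at h4
    exact h4

lemma zero_run (b : ℕ) (V g : ℕ → ℤ) (c : ℤ) (hV : ∀ n, V (n + 1) = b * V n + c * g (n + 1)) (m : ℕ) :
    ∀ L, (∀ i, m < i → i ≤ m + L → g i = 0) → V (m + L) = (b : ℤ) ^ L * V m := by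
  intro L
  induction L with
  | zero => intro _; simp
  | succ L ih =>
    intro h
    rw [← add_assoc, hV, h (m + L + 1) (by omega) (by omega), ih (fun i h1 h2 => h i h1 (by omega))]
    ring

theorem irr_of_gaps (x : ℝ) (b : ℕ) (hb : 2 ≤ b) (g : ℕ → ℤ) (M : ℤ) (hg : ∀ k, |g k| ≤ M)
    (hsum : HasSum (fun k : ℕ => (g k : ℝ) / (b : ℝ) ^ k) x)
    (h : ∀ L : ℕ, ∃ m n : ℕ, m + L < n ∧ g n ≠ 0 ∧ (∀ i, m < i → i < n → g i = 0) ∧
      ∀ i, n < i → i ≤ n + L → g i = 0) : Irrational x := by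
  obtain ⟨W, hW, hWa⟩ := exists_W x b hb g M hg hsum
  rintro ⟨r, hr⟩
  have hb2 : (2 : ℝ) ≤ b := by exact_mod_cast hb
  set V : ℕ → ℤ := fun n => r.den * W n - r.num * (b : ℤ) ^ n with hV
  have hVs : ∀ n, V (n + 1) = b * V n + (r.den : ℤ) * g (n + 1) := by
    intro n
    simp only [hV]
    rw [hW n, pow_succ]; ring
  have hden : (0 : ℝ) < r.den := by exact_mod_cast r.den_pos
  have hVb : ∀ n, |(V n : ℝ)| ≤ r.den * M := by
    intro n
    have e : (V n : ℝ) = r.den * ((W n : ℝ) - (b : ℝ) ^ n * x) := by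
      simp only [hV]
      push_cast
      rw [← hr]
      have : (r : ℝ) = r.num / r.den := by
        have := Rat.num_div_den r
        exact_mod_cast this.symm
      rw [this]
      field_simp
    rw [e, abs_mul, abs_of_pos hden]
    exact mul_le_mul_of_nonneg_left (hWa n) hden.le
  obtain ⟨L, hL⟩ := pow_unbounded_of_one_lt ((r.den : ℝ) * M) (show (1 : ℝ) < b by linarith)
  have hzero : ∀ m, (∀ i, m < i → i ≤ m + L → g i = 0) → V m = 0 := by
    intro m hm
    have h1 := zero_run b V g r.den hVs m L hm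
    have h2 := hVb (m + L)
    rw [h1] at h2
    push_cast at h2
    rw [abs_mul, abs_of_pos (by positivity)] at h2
    by_contra hne
    have h3 : (1 : ℝ) ≤ |(V m : ℝ)| := by exact_mod_cast Int.one_le_abs hne
    have h4 : (b : ℝ) ^ L * 1 ≤ (b : ℝ) ^ L * |(V m : ℝ)| :=
      mul_le_mul_of_nonneg_left h3 (by positivity)
    linarith
  obtain ⟨m, n, h1, h2, h3, h4⟩ := h L
  have hVm : V m = 0 := hzero m (fun i hi hi' => h3 i hi (by omega))
  have hVn : V n = 0 := hzero n h4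
  have hVn1 : V (n - 1) = 0 := by
    have h5 := zero_run b V g r.den hVs m (n - 1 - m) (fun i hi hi' => h3 i hi (by omega))
    rw [hVm, mul_zero, show m + (n - 1 - m) = n - 1 by omega] at h5
    exact h5
  have h6 := hVs (n - 1)
  rw [show n - 1 + 1 = n by omega, hVn, hVn1, mul_zero, zero_add] at h6
  rcases mul_eq_zero.1 h6.symm with h7 | h7
  · have := r.den_pos; omega
  · exact h2 h7

/-- transcendence criterion -/
theorem crit (b : ℕ) (hb : 2 ≤ b) (β γ : ℝ) (hβ1 : β ≤ 1) (hγ0 : 0 < γ)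
    (hγ : γ < β / 2) (n : ℕ → ℕ) (hn : StrictMono n) (ε : ℕ → ℤ) (M : ℤ)
    (hε : ∀ k, ε k ≠ 0 ∧ |ε k| ≤ M)
    (hgap : ∀ᶠ k in atTop, Real.exp ((Real.log (n k)) ^ β) ≤ (n (k + 1) : ℝ) - n k)
    (hcount : ∃ᶠ N : ℕ in atTop, (Set.ncard {k : ℕ | n k ≤ N} : ℝ) < Real.exp ((Real.log N) ^ γ)) :
    Transcendental ℚ (∑' k, (ε k : ℝ) / (b : ℝ) ^ (n k)) := by
  classical
  have hβ0 : 0 < β := by linarith
  have hb2 : (2 : ℝ) ≤ b := by exact_mod_cast hb
  have hM0 : (0 : ℝ) ≤ M := by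
    have := (abs_nonneg _).trans (hε 0).2
    exact_mod_cast this
  -- summability
  have hsumm : Summable (fun k => (ε k : ℝ) / (b : ℝ) ^ (n k)) := by
    refine Summable.of_norm_bounded (g := fun k : ℕ => (M : ℝ) * (1 / 2) ^ k)
      (summable_geometric_two.mul_left _) fun k => ?_
    rw [Real.norm_eq_abs, abs_div, abs_of_pos (show (0 : ℝ) < (b : ℝ) ^ (n k) by positivity)]
    have h1 : |(ε k : ℝ)| ≤ M := by exact_mod_cast (hε k).2
    have h2 : (2 : ℝ) ^ k ≤ (b : ℝ) ^ (n k) := by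
      calc (2 : ℝ) ^ k ≤ (2 : ℝ) ^ (n k) := pow_le_pow_right₀ (by norm_num) (hn.le_apply)
        _ ≤ _ := pow_le_pow_left₀ (by norm_num) hb2 _
    rw [one_div, inv_pow, ← div_eq_mul_inv]
    exact div_le_div₀ hM0 h1 (by positivity) h2
  set x : ℝ := ∑' k, (ε k : ℝ) / (b : ℝ) ^ (n k) with hx
  set g : ℕ → ℤ := Function.extend n ε 0 with hg
  have hgn : ∀ k, g (n k) = ε k := fun k => hn.injective.extend_apply ε 0 k
  have hg0 : ∀ m, m ∉ Set.range n → g m = 0 := by
    intro m hm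
    rw [hg, Function.extend_apply' _ _ _ (fun ⟨a, ha⟩ => hm ⟨a, ha⟩)]
    rfl
  have hgr : ∀ m, g m ≠ 0 → ∃ k, n k = m := by
    intro m hm
    by_contra h
    exact hm (hg0 m (fun ⟨k, hk⟩ => h ⟨k, hk⟩))
  have hgM : ∀ m, |g m| ≤ M := by
    intro m
    by_cases hm : m ∈ Set.range n
    · obtain ⟨k, rfl⟩ := hm
      rw [hgn]; exact (hε k).2
    · rw [hg0 m hm, abs_zero]
      exact_mod_cast hM0
  have hsum : HasSum (fun m : ℕ => (g m : ℝ) / (b : ℝ) ^ m) x := by
    rw [← hn.injective.hasSum_iff]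
    · have h1 : ((fun m : ℕ => (g m : ℝ) / (b : ℝ) ^ m) ∘ n) = fun k => (ε k : ℝ) / (b : ℝ) ^ (n k) := by
        funext k
        simp only [Function.comp]
        rw [hgn]
      rw [h1]
      exact hsumm.hasSum
    · intro m hm
      rw [hg0 m hm]; simp
  -- gaps tend to infinity
  obtain ⟨K0, hK0⟩ := eventually_atTop.1 hgap
  have hbetween : ∀ k i, n k < i → i < n (k + 1) → g i = 0 := by
    intro k i h1 h2
    apply hg0
    rintro ⟨j, rfl⟩
    have h3 := hn.lt_iff_lt.1 h1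
    have h4 := hn.lt_iff_lt.1 h2
    omega
  have hgapinf : Tendsto (fun k => (n (k + 1) : ℝ) - n k) atTop atTop := by
    refine tendsto_atTop_mono' atTop hgap ?_
    refine Real.tendsto_exp_atTop.comp ((tendsto_rpow_atTop hβ0).comp
      (Real.tendsto_log_atTop.comp ((tendsto_natCast_atTop_atTop (R := ℝ)).comp hn.tendsto_atTop)))
  have hirr : Irrational x := by
    refine irr_of_gaps x b hb g M hgM hsum fun L => ?_
    obtain ⟨K, hK⟩ := eventually_atTop.1 (hgapinf.eventually_gt_atTop (L : ℝ))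
    have h1 : n K + L < n (K + 1) := by
      have := hK K le_rfl
      have h2 : (n K : ℝ) + L < n (K + 1) := by linarith
      exact_mod_cast h2
    have h2 : n (K + 1) + L < n (K + 2) := by
      have := hK (K + 1) (by omega)
      have h2 : (n (K + 1) : ℝ) + L < n (K + 1 + 1) := by linarith
      exact_mod_cast h2
    exact ⟨n K, n (K + 1), h1, by rw [hgn]; exact (hε _).1, fun i hi hi' => hbetween K i hi hi',
      fun i hi hi' => hbetween (K + 1) i hi (lt_of_le_of_lt hi' h2)⟩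
  intro halg
  obtain ⟨γ1, hγ1a, hγ1b⟩ : ∃ γ1, γ / β < γ1 ∧ γ1 < 1 / 2 := exists_between (by
    rw [div_lt_iff₀ hβ0]; linarith)
  have hγ10 : 0 < γ1 := lt_of_le_of_lt (by positivity) hγ1a
  have hγβ : γ < β * γ1 := by
    rw [div_lt_iff₀ hβ0] at hγ1a; linarith
  obtain ⟨X, hX⟩ := expansions x halg hirr b hb g M hgM hsum (1 / 4) γ1 hγ10 hγ1b (by linarith)
  -- large `N`
  have hlog : Tendsto (fun N : ℕ => Real.log N) atTop atTop :=
    Real.tendsto_log_atTop.comp (tendsto_natCast_atTop_atTop (R := ℝ))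
  have ev1 := hlog.eventually (ev_mul (2 ^ (β * γ1)) γ (β * γ1) hγβ)
  have ev2 := hlog.eventually_ge_atTop 2
  have ev3 : ∀ᶠ N : ℕ in atTop, X ≤ (Real.log N / 2) ^ β :=
    ((tendsto_rpow_atTop hβ0).comp (hlog.atTop_div_const (by norm_num))).eventually_ge_atTop X
  have ev4 := hlog.eventually_gt_atTop (2 * Real.log (n K0 + 1))
  obtain ⟨N, hcN, h1, h2, h3, h4⟩ := (hcount.and_eventually (ev1.and (ev2.and (ev3.and ev4)))).exists
  set ℓ : ℝ := Real.log N with hℓ
  set ψ : ℝ := (ℓ / 2) ^ β with hψ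
  have hψℓ : ψ ≤ ℓ / 2 := by
    calc ψ ≤ (ℓ / 2) ^ (1 : ℝ) := Real.rpow_le_rpow_of_exponent_le (by linarith) hβ1
      _ = ℓ / 2 := Real.rpow_one _
  have hN0 : (0 : ℝ) < N := by
    by_contra h
    have h0 : (N : ℝ) = 0 := le_antisymm (not_lt.1 h) (Nat.cast_nonneg _)
    rw [hℓ, h0, Real.log_zero] at h2
    linarith
  have hmain := hX N ψ h3 (by linarith) (by
    intro k k' hk hkk hk'N hgk hgk'
    right
    obtain ⟨i, rfl⟩ := hgr k hgk
    obtain ⟨j, rfl⟩ := hgr k' hgk'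
    have hij : i < j := hn.lt_iff_lt.1 hkk
    -- `log (n i) ≥ ℓ / 2`
    have hpos : 0 < (N : ℝ) * Real.exp (-ψ) := mul_pos hN0 (Real.exp_pos _)
    have hlogk : ℓ / 2 ≤ Real.log (n i) := by
      have h5 : Real.log ((N : ℝ) * Real.exp (-ψ)) ≤ Real.log (n i) := Real.log_le_log hpos hk
      rw [Real.log_mul hN0.ne' (Real.exp_pos _).ne', Real.log_exp] at h5
      linarith
    have hiK : K0 ≤ i := by
      by_contra hcon
      push Not at hcon
      have h5 : n i ≤ n K0 := (hn.le_iff_le.2 hcon.le)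
      have h6 : (n i : ℝ) ≤ n K0 + 1 := by
        have : (n i : ℝ) ≤ n K0 := by exact_mod_cast h5
        linarith
      have h7 : Real.log (n i) ≤ Real.log (n K0 + 1) :=
        Real.log_le_log (lt_of_lt_of_le hpos hk) h6
      linarith
    have h8 := hK0 i hiK
    have h9 : n (i + 1) ≤ n j := hn.le_iff_le.2 hij
    have h10 : (n (i + 1) : ℝ) ≤ n j := by exact_mod_cast h9
    have h11 : Real.exp ψ ≤ Real.exp ((Real.log (n i)) ^ β) :=
      Real.exp_le_exp.2 (Real.rpow_le_rpow (by linarith) hlogk hβ0.le)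
    linarith)
  have hcard : (((Icc 1 N).filter (fun k => g k ≠ 0)).card : ℝ) ≤ (Set.ncard {k : ℕ | n k ≤ N} : ℝ) := by
    have hfin : ({k : ℕ | n k ≤ N}).Finite := by
      apply (Set.finite_Iic N).subset
      intro k hk
      exact (hn.le_apply).trans hk
    have h5 : ((Icc 1 N).filter (fun k => g k ≠ 0)) ⊆ hfin.toFinset.image n := by
      intro m hm
      rw [Finset.mem_filter, Finset.mem_Icc] at hm
      obtain ⟨k, rfl⟩ := hgr m hm.2
      rw [Finset.mem_image]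
      refine ⟨k, ?_, rfl⟩
      rw [Set.Finite.mem_toFinset]
      exact hm.1.2
    have h6 := (Finset.card_le_card h5).trans Finset.card_image_le
    rw [Set.ncard_eq_toFinset_card _ hfin]
    exact_mod_cast h6
  have hfinal : Real.exp (ℓ ^ γ) ≤ Real.exp (ψ ^ γ1) := by
    apply Real.exp_le_exp.2
    have h5 : ψ ^ γ1 = ℓ ^ (β * γ1) / 2 ^ (β * γ1) := by
      rw [hψ, ← Real.rpow_mul (by linarith), Real.div_rpow (by linarith) (by norm_num)]
    rw [h5, le_div_iff₀ (by positivity)]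
    linarith
  linarith

end Pool.Agent.N129.FC
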